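import Pool.Agent.H57.CC.Def
import Pool.Agent.H57.MP.Mg

/-!
# H57-CV-MGV: the windows with all classes large
-/

set_option autoImplicit false

open scoped NumberField
open IsDedekindDomain
open scoped Classical

noncomputable section

namespace H57.CV

open H57.PC H57.LOW H57.BRA H63.MA H38.BB H38.BG H51.CUB H77.PT H57.MP H57.CC

variable {K : Type} [Field K] [NumberField K] {p : ℕ} {ζ : K} {D : RD0 K p ζ} {Ω : Type}
  [Field Ω] [Algebra K Ω] {m l w N k : ℕ} {P R : Type} [Group P] [Group R]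

theorem mgx [NeZero p] {L : LDs D Ω} (Dg : GP p m l w N P R) (Fr : FR L) (b : Fin m → Kˣ)
    (X : VP K Ω p l k R) (θ : Fin N → Fin m → ZMod p) (φ : Fin N → (Fin w → ZMod p) → ℂ)
    (Y : ℝ) (hY : Real.exp (Real.log (Real.log Y) ^ 5) ≤ thr Y 1) :
    PCX Dg Fr b X θ (fun a => φ a.1) Y = ZX Dg Fr b X θ φ (Big (thr Y 1)) Y := by
  set A := (Fintype.piFinset (fun _ : Fin N × Fin 3 => GF D (2 * Y))).filter
    (fun h => (Wc D (UM N Y) ∅ Y h ∧ SpR Dg.cr b (clw (UM N Y) h)) ∧ FulL (spt h)) with hA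
  set B := (Fintype.piFinset (fun _ : Fin N => GF D (2 * Y))).filter
    (fun f => Fa D Dg.cr b (2 * Y) f ∧ Big (thr Y 1) f) with hB
  have e1 : PCX Dg Fr b X θ (fun a => φ a.1) Y =
      ∑ h ∈ A, ((wl ((∏ a, nr (h a)) / Y) : ℝ) : ℂ) *
        (∑ ρ ∈ RHf L Dg b ∅ (fun _ _ => 1) (clw (UM N Y) h),
          X.ph Dg ρ * ∏ a, ∏ v ∈ h a, φ a.1 (cq Dg Fr ρ v)) *
          ep p (thp D Dg.cr b θ (clw (UM N Y) h)) := by
    rw [hA, Finset.sum_filter]
    unfold PCX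
    refine Finset.sum_congr (by ext x; simp only [Fintype.mem_piFinset]) fun h _ => ?_
    by_cases h1 : Wc D (UM N Y) ∅ Y h ∧ SpR Dg.cr b (clw (UM N Y) h)
    · rw [if_pos h1]
      by_cases h2 : FulL (spt h)
      · rw [if_pos ⟨h1, h2⟩]
        have h3 : omL (spt h) = 1 := if_pos h2
        beta_reduce
        rw [h3, Complex.ofReal_one, one_mul]
      · rw [if_neg fun h4 => h2 h4.2]
        have h3 : omL (spt h) = 0 := if_neg h2
        beta_reduce
        rw [h3, Complex.ofReal_zero]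
        ring
    · rw [if_neg h1, if_neg fun h4 => h1 h4.1]
  have e2 : ZX Dg Fr b X θ φ (Big (thr Y 1)) Y =
      ∑ f ∈ B, ((wl ((∏ i, nr (f i)) / Y) : ℝ) : ℂ) * FX Dg Fr b X φ f *
        ep p (thp D Dg.cr b θ f) := by
    rw [hB, Finset.sum_filter]
    rfl
  rw [e1, e2]
  refine Finset.sum_nbij' (fun h => clw (UM N Y) h) (fun f => mgG Y f) ?_ ?_ ?_ ?_ ?_
  · intro h hh
    obtain ⟨hpi, ⟨⟨hd, hdE, hnr, hw⟩, hsp⟩, hful⟩ := Finset.mem_filter.mp hh
    rw [Fintype.mem_piFinset] at hpi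
    rw [mg_nr Y hd] at hnr
    refine Finset.mem_filter.mpr ⟨?_, ⟨mg_dj hd, hnr, hsp⟩, (mg_full hY hw).mp hful⟩
    · rw [Fintype.mem_piFinset]
      intro i
      rw [atupa_mem_GF]
      refine ⟨(atupa_le_prod (clw (UM N Y) h) i).trans hnr, ?_⟩
      intro v hv
      obtain ⟨t, ht⟩ := mg_mem.mp hv
      exact (atupa_mem_GF.mp (hpi (i, t))).2 v ht
  · intro f hf
    obtain ⟨hpi, ⟨hd, hnr, hsp⟩, hbig⟩ := Finset.mem_filter.mp hf
    rw [Fintype.mem_piFinset] at hpi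
    have h0 : ∀ i, ∀ v ∈ f i, (0 : ℝ) < nm v := by
      intro i v hv
      have h1 := (atupa_mem_GF.mp (hpi i)).2 v hv
      exact_mod_cast h1.2.pos
    have hr := mg_right (Y := Y) h0 fun i => (atupa_mem_GF.mp (hpi i)).1
    have hw : ∀ a, ∀ v ∈ mgG Y f a, mgW N Y a (nm v : ℝ) := fun a v hv => (mg_memG.mp hv).2
    have hdG : Dj (mgG Y f) := by
      rintro ⟨i, t⟩ ⟨i', t'⟩ haa
      rw [Finset.disjoint_left]
      intro v hv hv'
      obtain ⟨h1, h2⟩ := mg_memG.mp hv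
      obtain ⟨h1', h2'⟩ := mg_memG.mp hv'
      by_cases hii : i = i'
      · subst hii
        exact haa (by rw [mg_uniq hY h2 h2'])
      · exact Finset.disjoint_left.mp (hd i i' hii) h1 h1'
    have hnG : ∏ a, nr (mgG Y f a) ≤ 2 * Y := by
      rw [mg_nr Y hdG, hr]
      exact hnr
    refine Finset.mem_filter.mpr ⟨?_, ⟨⟨hdG, ?_, hnG, hw⟩, ?_⟩, ?_⟩
    · rw [Fintype.mem_piFinset]
      intro a
      rw [atupa_mem_GF]
      refine ⟨(atupa_le_prod (mgG Y f) a).trans hnG, ?_⟩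
      intro v hv
      exact (atupa_mem_GF.mp (hpi a.1)).2 v (mg_memG.mp hv).1
    · intro a
      exact Finset.disjoint_empty_right _
    · rw [hr]
      exact hsp
    · rw [mg_full hY hw, hr]
      exact hbig
  · intro h hh
    obtain ⟨-, ⟨⟨-, -, -, hw⟩, -⟩, -⟩ := Finset.mem_filter.mp hh
    exact mg_left hY hw
  · intro f hf
    obtain ⟨hpi, -⟩ := Finset.mem_filter.mp hf
    rw [Fintype.mem_piFinset] at hpi
    have h0 : ∀ i, ∀ v ∈ f i, (0 : ℝ) < nm v := by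
      intro i v hv
      have h1 := (atupa_mem_GF.mp (hpi i)).2 v hv
      exact_mod_cast h1.2.pos
    exact mg_right (Y := Y) h0 fun i => (atupa_mem_GF.mp (hpi i)).1
  · intro h hh
    obtain ⟨-, ⟨⟨hd, -, -, -⟩, -⟩, -⟩ := Finset.mem_filter.mp hh
    rw [mg_nr Y hd]
    congr 2
    unfold FX
    refine Finset.sum_congr rfl fun ρ _ => ?_
    congr 1
    exact mg_prod Y hd fun i v => φ i (cq Dg Fr ρ v)

end H57.CV
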