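import Pool.Agent.H57.CC.Def

/-!
# H57-CV-LIM: limits with the norming `Y (log Y)^(N-1)`
-/

set_option autoImplicit false

open Filter Topology

noncomputable section

namespace H57.CV

open H57.CC

/-- the quotient by `Y (log Y)^(N-1)` has a limit -/
def Lm (N : ℕ) (F : ℝ → ℂ) : Prop :=
  ∃ L₀ : ℂ, Tendsto (fun Y : ℝ => F Y / ((Y * Real.log Y ^ (N - 1) : ℝ) : ℂ)) atTop (𝓝 L₀)

theorem lm_neg {N : ℕ} {F : ℝ → ℂ} (h : Neg N F) : Lm N F := by
  refine ⟨0, ?_⟩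
  rw [Metric.tendsto_atTop]
  intro ε hε
  obtain ⟨Y₀, hY₀, hb⟩ := h (ε / 2) (by positivity)
  refine ⟨Y₀, fun Y hY => ?_⟩
  have hY3 : 3 ≤ Y := hY₀.trans hY
  have hL : 0 < Real.log Y := Real.log_pos (by linarith)
  have hpos : 0 < Y * Real.log Y ^ (N - 1) := by positivity
  rw [dist_zero_right, norm_div, Complex.norm_real, Real.norm_eq_abs, abs_of_pos hpos,
    div_lt_iff₀ hpos]
  have h1 := hb Y hY
  nlinarith

theorem neg_of_le {N : ℕ} {F : ℝ → ℂ} {C Y₀ : ℝ} (hC : 0 < C) (h : ∀ Y, Y₀ ≤ Y →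
    ‖F Y‖ ≤ C * Y * Real.log Y ^ (-(1 : ℝ))) : Neg N F := by
  intro ε hε
  have ht : ∀ᶠ Y : ℝ in atTop, C / ε ≤ Real.log Y := Real.tendsto_log_atTop.eventually
    (eventually_ge_atTop _)
  obtain ⟨Y₁, hY₁⟩ := eventually_atTop.1 ht
  refine ⟨max 3 (max Y₀ Y₁), le_max_left _ _, fun Y hY => ?_⟩
  have hY3 : 3 ≤ Y := (le_max_left _ _).trans hY
  have hYa : Y₀ ≤ Y := ((le_max_left _ _).trans (le_max_right _ _)).trans hY
  have hYb : Y₁ ≤ Y := ((le_max_right _ _).trans (le_max_right _ _)).trans hY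
  have hl := hY₁ Y hYb
  have hlg : 1 ≤ Real.log Y := by
    rw [Real.le_log_iff_exp_le (by linarith)]
    have := Real.exp_one_lt_d9
    linarith
  have hpw : 1 ≤ Real.log Y ^ (N - 1) := one_le_pow₀ hlg
  refine (h Y hYa).trans ?_
  rw [Real.rpow_neg (by linarith), Real.rpow_one]
  have h1 : C * Y * (Real.log Y)⁻¹ ≤ ε * Y := by
    rw [← div_eq_mul_inv, div_le_iff₀ (by linarith)]
    have h2 : C ≤ ε * Real.log Y := by
      rw [div_le_iff₀ hε] at hl
      linarith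
    have hY0 : 0 < Y := by linarith
    nlinarith
  refine h1.trans ?_
  have hY0 : 0 < ε * Y := by positivity
  nlinarith

theorem lm_add {N : ℕ} {F G : ℝ → ℂ} (hF : Lm N F) (hG : Lm N G) : Lm N fun Y => F Y + G Y := by
  obtain ⟨a, ha⟩ := hF
  obtain ⟨b, hb⟩ := hG
  refine ⟨a + b, (ha.add hb).congr fun Y => ?_⟩
  rw [add_div]

theorem lm_mul {N : ℕ} {F : ℝ → ℂ} (c : ℂ) (hF : Lm N F) : Lm N fun Y => c * F Y := by
  obtain ⟨a, ha⟩ := hF
  refine ⟨c * a, (ha.const_mul c).congr fun Y => ?_⟩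
  rw [mul_div_assoc]

theorem lm_sum {N : ℕ} {ι : Type} (s : Finset ι) {F : ι → ℝ → ℂ} (hF : ∀ i ∈ s, Lm N (F i)) :
    Lm N fun Y => ∑ i ∈ s, F i Y := by
  classical
  induction s using Finset.induction_on with
  | empty =>
    refine ⟨0, ?_⟩
    simp only [Finset.sum_empty, zero_div]
    exact tendsto_const_nhds
  | insert i s hi ih =>
    have h1 := lm_add (hF i (Finset.mem_insert_self _ _))
      (ih fun j hj => hF j (Finset.mem_insert_of_mem hj))
    refine (show Lm N _ from ?_)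
    simp only [Finset.sum_insert hi]
    exact h1

theorem lm_congr {N : ℕ} {F G : ℝ → ℂ} (hF : Lm N F) (h : ∀ᶠ Y in atTop, F Y = G Y) :
    Lm N G := by
  obtain ⟨a, ha⟩ := hF
  refine ⟨a, ha.congr' ?_⟩
  filter_upwards [h] with Y hY
  rw [hY]

theorem lm_diff {N : ℕ} {F G : ℝ → ℂ} (hG : Lm N G) (h : Neg N fun Y => F Y - G Y) : Lm N F := by
  refine lm_congr (lm_add (lm_neg h) hG) (Filter.Eventually.of_forall fun Y => ?_)
  simp

end H57.CV
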