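import Pool.Agent.H57.CV.Exv
import Pool.Agent.H57.LOW.Loa

/-!
# H57-CV-NTR: a nontrivial functional is nontrivial on some commutator
-/

set_option autoImplicit false

open scoped NumberField
open IsDedekindDomain
open scoped Classical

noncomputable section

namespace H57.CV

open H57.PC H57.LOW H57.BRA H63.MA H38.BB H38.BG H51.CUB H77.PT H57.MP H51.CUD H57.CC

variable {K : Type} [Field K] [NumberField K] {p : ℕ} {ζ : K} {D : RD0 K p ζ} {Ω : Type}
  [Field Ω] [Algebra K Ω] {m l w N k : ℕ} {P R : Type} [Group P] [Group R]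

theorem ntr (Dg : GP p m l w N P R) {Q : DP K Ω} (X : VP K Ω p l k R) (hX : X.Ok D Q)
    (h : ¬ X.Tr ζ) : ∃ j i, Nps Dg (SX Dg X hX) (Dg.kV (Dg.s j) (Dg.s i)) := by
  by_contra hcon
  push Not at hcon
  refine h ?_
  have key : ∀ y ∈ Submodule.span (ZMod p) {v | ∃ j i, v = Dg.kV (Dg.s j) (Dg.s i)},
      ∀ c : Kˣ, ∑ j, dt (X.η j) y * kk p ζ c (X.σ j) = 0 := by
    intro y hy
    induction hy using Submodule.span_induction with
    | mem y hy =>
      obtain ⟨j, i, rfl⟩ := hy
      intro c
      by_contra hne
      exact hcon j i ⟨c, hne⟩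
    | zero =>
      intro c
      refine Finset.sum_eq_zero fun j _ => ?_
      unfold dt
      simp
    | add a b _ _ ha hb =>
      intro c
      have h1 : ∀ j, dt (X.η j) (a + b) = dt (X.η j) a + dt (X.η j) b := by
        intro j
        unfold dt
        rw [← Finset.sum_add_distrib]
        exact Finset.sum_congr rfl fun t _ => by rw [Pi.add_apply]; ring
      simp only [h1, add_mul, Finset.sum_add_distrib]
      rw [ha c, hb c, add_zero]
    | smul t a _ ha =>
      intro c
      have h1 : ∀ j, dt (X.η j) (t • a) = t * dt (X.η j) a := by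
        intro j
        unfold dt
        rw [Finset.mul_sum]
        exact Finset.sum_congr rfl fun s _ => by rw [Pi.smul_apply, smul_eq_mul]; ring
      simp only [h1, mul_assoc]
      rw [← Finset.mul_sum, ha c, mul_zero]
  intro y c
  refine key y ?_ c
  rw [kvs_span]
  exact Submodule.mem_top

end H57.CV
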