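import Pool.Agent.H57.CV.Exv
import Pool.Agent.H57.CV.Mbv
import Pool.Agent.H57.CV.Ntr
import Pool.Agent.H57.CV.Lim

/-!
# H57-CV-PXB: bounds for the windows with the phase of the virtual primes
-/

set_option autoImplicit false

open scoped NumberField
open IsDedekindDomain
open scoped Classical

noncomputable section

namespace H57.CV

open H57.PC H57.LOW H57.BRA H63.MA H38.BB H38.BG H51.CUB H77.PT H57.MP H51.CUD H57.CC

variable {K : Type} [Field K] [NumberField K] {p : ℕ} {ζ : K} {Ω : Type} [Field Ω] [Algebra K Ω]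
  [IsAlgClosure K Ω] {m l w N k : ℕ} {P R : Type} [Group P] [Group R]

theorem px_bd [NeZero p] [Finite P] [Finite R] (hp : p.Prime)
    (hζ : IsPrimitiveRoot ζ p) {D : RD0 K p ζ} {L : LDs D Ω} (Dg : GP p m l w N P R) (Fr : FR L)
    {Q : DP K Ω} (X : VP K Ω p l k R) (hX : X.Ok D Q) (b : Fin m → Kˣ) (hb : BS2 D b ∅)
    (Y M : ℝ) {A : Type} (B : Finset A) (φ₀ : Fin N × Fin 3 → (Fin w → ZMod p) → ℂ)
    (φ : A → Fin N × Fin 3 → (Fin w → ZMod p) → ℂ)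
    (h : ∀ (u : Fin N × Fin 3 → Pl K → ZMod p) (lam : Fin N × Fin 3 → Fin N × Fin 3 → ZMod p),
      ‖PCV Dg (SX Dg X hX) Fr (UM N Y) φ₀ b ∅ (fun _ _ => 1) u lam
          (fun S => ((omL S : ℝ) : ℂ)) Y -
        ∑ t ∈ B, PCV Dg (SX Dg X hX) Fr (UM N Y) (φ t) b ∅ (fun _ _ => 1) u lam
          (fun S => ((omL S : ℝ) : ℂ)) Y‖ ≤ M)
    (θ : Fin N → Fin m → ZMod p) :
    ‖PCX Dg Fr b X θ φ₀ Y - ∑ t ∈ B, PCX Dg Fr b X θ (φ t) Y‖ ≤ M := by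
  have hpp : (((p : ℂ) ^ m) ^ k) ≠ 0 := pow_ne_zero _ (fo_pw hp m)
  simp only [ex_v hp hζ Dg Fr X hX b hb θ]
  have e1 : ((((p : ℂ) ^ m) ^ k)⁻¹ * ∑ μ : Fin k → Fin m → ZMod p,
      ep p (exK Dg ζ X b μ) * PCV Dg (SX Dg X hX) Fr (UM N Y) φ₀ b ∅ (fun _ _ => 1)
        (fun a => exU D Dg X b θ μ a.1) (fun a a' => dt (θ a.1) (Dg.s a'.1))
        (fun S => ((omL S : ℝ) : ℂ)) Y) -
      ∑ t ∈ B, ((((p : ℂ) ^ m) ^ k)⁻¹ * ∑ μ : Fin k → Fin m → ZMod p,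
      ep p (exK Dg ζ X b μ) * PCV Dg (SX Dg X hX) Fr (UM N Y) (φ t) b ∅ (fun _ _ => 1)
        (fun a => exU D Dg X b θ μ a.1) (fun a a' => dt (θ a.1) (Dg.s a'.1))
        (fun S => ((omL S : ℝ) : ℂ)) Y) =
      (((p : ℂ) ^ m) ^ k)⁻¹ * ∑ μ : Fin k → Fin m → ZMod p, ep p (exK Dg ζ X b μ) *
        (PCV Dg (SX Dg X hX) Fr (UM N Y) φ₀ b ∅ (fun _ _ => 1)
        (fun a => exU D Dg X b θ μ a.1) (fun a a' => dt (θ a.1) (Dg.s a'.1))
        (fun S => ((omL S : ℝ) : ℂ)) Y - ∑ t ∈ B,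
        PCV Dg (SX Dg X hX) Fr (UM N Y) (φ t) b ∅ (fun _ _ => 1)
        (fun a => exU D Dg X b θ μ a.1) (fun a a' => dt (θ a.1) (Dg.s a'.1))
        (fun S => ((omL S : ℝ) : ℂ)) Y) := by
    rw [← Finset.mul_sum, ← mul_sub, Finset.sum_comm, ← Finset.sum_sub_distrib]
    congr 1
    refine Finset.sum_congr rfl fun μ _ => ?_
    rw [← Finset.mul_sum, mul_sub]
  rw [e1, norm_mul]
  have hM : ‖∑ μ : Fin k → Fin m → ZMod p, ep p (exK Dg ζ X b μ) *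
        (PCV Dg (SX Dg X hX) Fr (UM N Y) φ₀ b ∅ (fun _ _ => 1)
        (fun a => exU D Dg X b θ μ a.1) (fun a a' => dt (θ a.1) (Dg.s a'.1))
        (fun S => ((omL S : ℝ) : ℂ)) Y - ∑ t ∈ B,
        PCV Dg (SX Dg X hX) Fr (UM N Y) (φ t) b ∅ (fun _ _ => 1)
        (fun a => exU D Dg X b θ μ a.1) (fun a a' => dt (θ a.1) (Dg.s a'.1))
        (fun S => ((omL S : ℝ) : ℂ)) Y)‖ ≤ ((p : ℝ) ^ m) ^ k * M := by
    refine (norm_sum_le _ _).trans ?_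
    calc _ ≤ ∑ _μ : Fin k → Fin m → ZMod p, M := by
          refine Finset.sum_le_sum fun μ _ => ?_
          rw [norm_mul, ep_norm, one_mul]
          exact h _ _
      _ = _ := by
          rw [Finset.sum_const, Finset.card_univ, nsmul_eq_mul, Fintype.card_fun,
            Fintype.card_fun, ZMod.card, Fintype.card_fin, Fintype.card_fin]
          push_cast
          rfl
  have hp0 : (0 : ℝ) < ((p : ℝ) ^ m) ^ k := by
    have := NeZero.pos p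
    positivity
  calc _ ≤ ‖((((p : ℂ) ^ m) ^ k)⁻¹)‖ * (((p : ℝ) ^ m) ^ k * M) :=
        mul_le_mul_of_nonneg_left hM (norm_nonneg _)
    _ = M := by
      rw [norm_inv, norm_pow, norm_pow, Complex.norm_natCast]
      field_simp

/-- the linked triples -/
theorem px_a [NeZero p] [Finite P] [Finite R] (hp : p.Prime) (hp2 : MOne p K)
    (hζ : IsPrimitiveRoot ζ p) (hz : Z2 p K) (D : RD K p ζ) (L : LDs D.toRD0 Ω) (Fr : FR L)
    (Dg : GP p m l w N P R) {Q : DP K Ω} (X : VP K Ω p l k R) (hX : X.Ok D.toRD0 Q)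
    (b : Fin m → Kˣ) (hb : BS2 D.toRD0 b ∅) (θ : Fin N → Fin m → ZMod p) :
    Neg N fun Y => PCX Dg Fr b X θ (fun a => fA Dg a.1) Y -
      ∑ χ ∈ J0 Dg, PCX Dg Fr b X θ (fB Dg χ) Y := by
  obtain ⟨C, Y₀, hC, hY₀, h⟩ := mv_a hp hp2 hζ hz D L Fr Dg (SX Dg X hX) 1
  refine neg_of_le hC (Y₀ := Y₀) fun Y hY => ?_
  exact px_bd hp hζ Dg Fr X hX b hb Y _ (J0 Dg) (fun a => fA Dg a.1) (fB Dg)
    (fun u lam => h Y hY b hb u lam) θ

/-- the small primes linked with two large ones -/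
theorem px_b [NeZero p] [Finite P] [Finite R] (hp : p.Prime) (hp2 : MOne p K)
    (hζ : IsPrimitiveRoot ζ p) (hz : Z2 p K) (D : RD K p ζ) (L : LDs D.toRD0 Ω) (Fr : FR L)
    (Dg : GP p m l w N P R) {Q : DP K Ω} (X : VP K Ω p l k R) (hX : X.Ok D.toRD0 Q)
    (b : Fin m → Kˣ) (hb : BS2 D.toRD0 b ∅) (θ : Fin N → Fin m → ZMod p) :
    Neg N fun Y => PCX Dg Fr b X θ (fB Dg 0) Y -
      PCX Dg Fr b X θ (fun a => fC Dg 0 a.1) Y := by
  obtain ⟨C, Y₀, hC, hY₀, h⟩ := mv_b hp hp2 hζ hz D L Fr Dg (SX Dg X hX) 1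
  refine neg_of_le hC (Y₀ := Y₀) fun Y hY => ?_
  have h1 := px_bd hp hζ Dg Fr X hX b hb Y _ ({()} : Finset Unit) (fB Dg 0)
    (fun _ a => fC Dg 0 a.1) (fun u lam => by
      rw [Finset.sum_singleton]
      exact h Y hY b hb u lam) θ
  rwa [Finset.sum_singleton] at h1

/-- a nontrivial functional -/
theorem px_x [NeZero p] [Finite P] [Finite R] (hp : p.Prime) (hp2 : MOne p K)
    (hζ : IsPrimitiveRoot ζ p) (hz : Z2 p K) (D : RD K p ζ) (L : LDs D.toRD0 Ω) (Fr : FR L)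
    (Dg : GP p m l w N P R) {Q : DP K Ω} (X : VP K Ω p l k R) (hX : X.Ok D.toRD0 Q)
    (ht : ¬ X.Tr ζ) (b : Fin m → Kˣ) (hb : BS2 D.toRD0 b ∅) (θ : Fin N → Fin m → ZMod p) :
    Neg N fun Y => PCX Dg Fr b X θ (fun a => fC Dg 0 a.1) Y := by
  obtain ⟨j, i, hn⟩ := ntr Dg X hX ht
  obtain ⟨C, Y₀, hC, hY₀, h⟩ := mv_x hp hp2 hζ hz D L Fr Dg (SX Dg X hX) j i hn 1
  refine neg_of_le hC (Y₀ := Y₀) fun Y hY => ?_
  have h1 := px_bd hp hζ Dg Fr X hX b hb Y _ (∅ : Finset Unit) (fun a => fC Dg 0 a.1)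
    (fun _ a => fC Dg 0 a.1) (fun u lam => by
      rw [Finset.sum_empty, sub_zero]
      exact h Y hY b hb u lam) θ
  rwa [Finset.sum_empty, sub_zero] at h1

end H57.CV
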