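import Pool.Agent.H57.CC.Def
import Pool.Agent.H57.CC.Suo
import Pool.Agent.H57.MP.Mu
import Pool.Agent.H57.MP.Mf
import Pool.Agent.H51.CUB.SMB

/-!
# H57-CV-SUZ: the families with a class without large primes are negligible
-/

set_option autoImplicit false

open scoped NumberField
open IsDedekindDomain Filter Topology
open scoped Classical

noncomputable section

namespace H57.CV

open H57.PC H57.LOW H57.BRA H63.MA H38.BB H38.BG H51.CUB H77.PT H57.MP H57.CC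

theorem sz_lim (B : ℕ) {δ : ℝ} (hδ : 0 < δ) : ∃ Y₀ : ℝ, 3 ≤ Y₀ ∧ ∀ Y : ℝ, Y₀ ≤ Y →
    (1 + Real.log (Real.log (2 * Y))) ^ B / (1 + Real.log (2 * Y)) ≤ δ := by
  have hc : 0 < δ / 2 ^ B := by positivity
  have h1 : ∀ᶠ y in atTop, ‖Real.log y ^ B‖ ≤ δ / 2 ^ B * ‖y‖ :=
    (Real.isLittleO_pow_log_id_atTop (n := B)).def hc
  have ht : Tendsto (fun Y : ℝ => Real.log (2 * Y)) atTop atTop :=
    Real.tendsto_log_atTop.comp (tendsto_id.const_mul_atTop (by norm_num))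
  have ht2 : Tendsto (fun Y : ℝ => Real.log (Real.log (2 * Y))) atTop atTop :=
    Real.tendsto_log_atTop.comp ht
  have h2 := (ht.eventually h1).and ((ht2.eventually (eventually_ge_atTop 1)).and
    (ht.eventually (eventually_ge_atTop 1)))
  obtain ⟨Y₁, hY₁⟩ := eventually_atTop.1 h2
  refine ⟨max 3 Y₁, le_max_left _ _, fun Y hY => ?_⟩
  obtain ⟨ha, hb, hc'⟩ := hY₁ Y ((le_max_right _ _).trans hY)
  rw [div_le_iff₀ (by linarith)]
  have h3 : (1 + Real.log (Real.log (2 * Y))) ^ B ≤ (2 * Real.log (Real.log (2 * Y))) ^ B :=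
    pow_le_pow_left₀ (by linarith) (by linarith) B
  have h4 : Real.log (Real.log (2 * Y)) ^ B ≤ δ / 2 ^ B * Real.log (2 * Y) := by
    have h5 := (le_abs_self _).trans ha
    rwa [Real.norm_eq_abs, abs_of_nonneg (by linarith : (0 : ℝ) ≤ Real.log (2 * Y))] at h5
  calc (1 + Real.log (Real.log (2 * Y))) ^ B ≤ (2 * Real.log (Real.log (2 * Y))) ^ B := h3
    _ = 2 ^ B * Real.log (Real.log (2 * Y)) ^ B := by rw [mul_pow]
    _ ≤ 2 ^ B * (δ / 2 ^ B * Real.log (2 * Y)) := mul_le_mul_of_nonneg_left h4 (by positivity)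
    _ = δ * Real.log (2 * Y) := by field_simp
    _ ≤ δ * (1 + Real.log (2 * Y)) := mul_le_mul_of_nonneg_left (by linarith) hδ.le

variable {K : Type} [Field K] [NumberField K] {p : ℕ} {ζ : K} {Ω : Type} [Field Ω] [Algebra K Ω]
  [IsAlgClosure K Ω] {m l w N k : ℕ} {P R : Type} [Group P] [Group R]

theorem sz_ph [NeZero p] (Dg : GP p m l w N P R) (X : VP K Ω p l k R) (ρ : Gal(Ω/K) →* R) :
    ‖X.ph Dg ρ‖ ≤ 1 := by
  unfold VP.ph
  split_ifs
  · rw [ep_norm]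
  · rw [norm_zero]
    exact zero_le_one

theorem sz_fx [NeZero p] {D : RD0 K p ζ} {L : LDs D Ω} (Dg : GP p m l w N P R) (Fr : FR L)
    (b : Fin m → Kˣ) (X : VP K Ω p l k R) (f : Fin N → Finset (Pl K)) :
    ‖FX Dg Fr b X (fA Dg) f‖ ≤ FW Dg Fr b ∅ (fun _ _ => 1) f := by
  unfold FX
  refine (norm_sum_le _ _).trans ?_
  have h1 : ∀ ρ ∈ RHf L Dg b ∅ (fun _ _ => 1) f,
      ‖X.ph Dg ρ * ∏ i, ∏ v ∈ f i, fA Dg i (cq Dg Fr ρ v)‖ ≤
        ‖∏ i, ∏ v ∈ f i, fA Dg i (cq Dg Fr ρ v)‖ := by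
    intro ρ _
    rw [norm_mul]
    exact mul_le_of_le_one_left (norm_nonneg _) (sz_ph Dg X ρ)
  refine (Finset.sum_le_sum h1).trans (le_of_eq ?_)
  have h2 := mu_fw Dg Fr b ∅ (fun _ _ => 1) f
  have h3 : ((FW Dg Fr b ∅ (fun _ _ => 1) f : ℝ) : ℂ) =
      ((∑ ρ ∈ RHf L Dg b ∅ (fun _ _ => 1) f,
        ‖∏ i, ∏ v ∈ f i, fA Dg i (cq Dg Fr ρ v)‖ : ℝ) : ℂ) := by
    rw [h2, Complex.ofReal_sum]
    refine Finset.sum_congr rfl fun ρ _ => ?_
    rw [norm_prod, Complex.ofReal_prod]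
    refine Finset.prod_congr rfl fun i _ => ?_
    rw [norm_prod, Complex.ofReal_prod]
    exact Finset.prod_congr rfl fun v _ => mu_fA Dg i _
  exact (Complex.ofReal_injective h3).symm

theorem sz_y {Y : ℝ} (hY : 3 ≤ Y) (N : ℕ) :
    2 * Y * (1 + Real.log (2 * Y)) ^ (N - 1) ≤ 2 * 3 ^ (N - 1) * (Y * Real.log Y ^ (N - 1)) := by
  have h1 : 1 ≤ Real.log Y := by
    rw [Real.le_log_iff_exp_le (by linarith)]
    have := Real.exp_one_lt_d9
    linarith
  have h2 : Real.log (2 * Y) ≤ 1 + Real.log Y := by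
    rw [Real.log_mul (by norm_num) (by linarith)]
    have := Real.log_two_lt_d9
    linarith
  have h3 : 0 ≤ Real.log (2 * Y) := Real.log_nonneg (by linarith)
  have h4 : (1 + Real.log (2 * Y)) ^ (N - 1) ≤ (3 * Real.log Y) ^ (N - 1) :=
    pow_le_pow_left₀ (by linarith) (by linarith) _
  rw [mul_pow] at h4
  calc 2 * Y * (1 + Real.log (2 * Y)) ^ (N - 1) ≤
      2 * Y * (3 ^ (N - 1) * Real.log Y ^ (N - 1)) :=
        mul_le_mul_of_nonneg_left h4 (by linarith)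
    _ = _ := by ring

theorem suz [NeZero p] [Finite P] [Finite R] (hp : p.Prime) (hp2 : MOne p K)
    (hζ : IsPrimitiveRoot ζ p) (hz : Z2 p K) (D : RD K p ζ) (L : LDs D.toRD0 Ω) (Fr : FR L)
    (Dg : GP p m l w N P R) (X : VP K Ω p l k R) (b : Fin m → Kˣ) (hb : BS2 D.toRD0 b ∅) :
    Neg N fun Y => ZX Dg Fr b X (fun _ _ => 0) (fA Dg) (fun _ => True) Y -
      ZX Dg Fr b X (fun _ _ => 0) (fA Dg) (Big (thr Y 1)) Y := by
  obtain ⟨C, Y₀, B, hC, hY₀, h⟩ :=
    H77.S0T.suo_all hp hp2 hζ hz D L Fr Dg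
  intro ε hε
  obtain ⟨Y₁, hY₁, hl⟩ := sz_lim B (δ := ε / (C * (2 * 3 ^ (N - 1)))) (by positivity)
  refine ⟨max Y₀ Y₁, hY₀.trans (le_max_left _ _), fun Y hY => ?_⟩
  have hYa : Y₀ ≤ Y := (le_max_left _ _).trans hY
  have hYb : Y₁ ≤ Y := (le_max_right _ _).trans hY
  have hY3 : 3 ≤ Y := hY₀.trans hYa
  have h1 := h (2 * Y) (by linarith) b ∅ hb ?_ (fun _ _ => 1)
  · have h2 : ‖ZX Dg Fr b X (fun _ _ => 0) (fA Dg) (fun _ => True) Y -
        ZX Dg Fr b X (fun _ _ => 0) (fA Dg) (Big (thr Y 1)) Y‖ ≤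
        ∑ f ∈ Fintype.piFinset (fun _ : Fin N => GF D.toRD0 (2 * Y)),
          if (Dj f ∧ (∀ i, Disjoint (f i) (∅ : Finset (Pl K))) ∧ ∏ i, nr (f i) ≤ 2 * Y ∧
            SpR Dg.cr b f) ∧ ¬ ∀ i, ∃ v ∈ f i, thr (2 * Y) 1 < nm v then
            FW Dg Fr b ∅ (fun _ _ => 1) f else 0 := by
      unfold ZX
      rw [← Finset.sum_sub_distrib]
      refine (norm_sum_le _ _).trans (Finset.sum_le_sum fun f _ => ?_)
      by_cases hF : Fa D.toRD0 Dg.cr b (2 * Y) f
      · by_cases hB : Big (thr Y 1) f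
        · rw [if_pos ⟨hF, trivial⟩, if_pos ⟨hF, hB⟩, sub_self, norm_zero]
          split_ifs
          · exact log_fw_nonneg Dg Fr b ∅ _ f
          · exact le_refl _
        · rw [if_pos ⟨hF, trivial⟩, if_neg (fun h' => hB h'.2), sub_zero]
          have hB2 : ¬ ∀ i, ∃ v ∈ f i, thr (2 * Y) 1 < nm v := by
            intro h'
            refine hB fun i => ?_
            obtain ⟨v, hv, hv'⟩ := h' i
            exact ⟨v, hv, lt_of_le_of_lt (H57.MP.thr_mono hY3 (by linarith)) hv'⟩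
          rw [if_pos ⟨⟨hF.1, fun i => Finset.disjoint_empty_right _, hF.2.1, hF.2.2⟩, hB2⟩]
          rw [norm_mul, norm_mul, ep_norm, mul_one, Complex.norm_real, Real.norm_eq_abs,
            abs_of_nonneg (H51.CUB.wl_nonneg _)]
          calc wl ((∏ i, nr (f i)) / Y) * ‖FX Dg Fr b X (fA Dg) f‖ ≤
              1 * ‖FX Dg Fr b X (fA Dg) f‖ :=
                mul_le_mul_of_nonneg_right (wl_le_one _) (norm_nonneg _)
            _ = ‖FX Dg Fr b X (fA Dg) f‖ := one_mul _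
            _ ≤ _ := sz_fx Dg Fr b X f
      · rw [if_neg (fun h' => hF h'.1), if_neg (fun h' => hF h'.1), sub_self, norm_zero]
        split_ifs
        · exact log_fw_nonneg Dg Fr b ∅ _ f
        · exact le_refl _
    have h3 : 0 ≤ (1 + Real.log (Real.log (2 * Y))) ^ B / (1 + Real.log (2 * Y)) := by
      have e1 : 1 ≤ Real.log (2 * Y) := by
        rw [Real.le_log_iff_exp_le (by linarith)]
        have := Real.exp_one_lt_d9
        linarith
      have e2 : 0 ≤ Real.log (Real.log (2 * Y)) := Real.log_nonneg e1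
      positivity
    calc ‖ZX Dg Fr b X (fun _ _ => 0) (fA Dg) (fun _ => True) Y -
        ZX Dg Fr b X (fun _ _ => 0) (fA Dg) (Big (thr Y 1)) Y‖ ≤
        C * (2 * Y) * (1 + Real.log (2 * Y)) ^ (N - 1) *
          ((1 + Real.log (Real.log (2 * Y))) ^ B / (1 + Real.log (2 * Y))) := h2.trans h1
      _ = C * (2 * Y * (1 + Real.log (2 * Y)) ^ (N - 1)) *
          ((1 + Real.log (Real.log (2 * Y))) ^ B / (1 + Real.log (2 * Y))) := by ring
      _ ≤ C * (2 * 3 ^ (N - 1) * (Y * Real.log Y ^ (N - 1))) *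
          ((1 + Real.log (Real.log (2 * Y))) ^ B / (1 + Real.log (2 * Y))) :=
        mul_le_mul_of_nonneg_right (mul_le_mul_of_nonneg_left (sz_y hY3 N) hC.le) h3
      _ ≤ C * (2 * 3 ^ (N - 1) * (Y * Real.log Y ^ (N - 1))) *
          (ε / (C * (2 * 3 ^ (N - 1)))) := by
        refine mul_le_mul_of_nonneg_left (hl Y hYb) ?_
        have : 0 ≤ Real.log Y := Real.log_nonneg (by linarith)
        positivity
      _ = ε * Y * Real.log Y ^ (N - 1) := by field_simp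
  · unfold nr thr
    rw [Finset.prod_empty]
    refine Real.one_le_exp ?_
    have e1 : 1 ≤ Real.log (2 * Y) := by
      rw [Real.le_log_iff_exp_le (by linarith)]
      have := Real.exp_one_lt_d9
      linarith
    have e2 : 0 ≤ Real.log (Real.log (2 * Y)) := Real.log_nonneg e1
    positivity

end H57.CV
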