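import Pool.Agent.H57.CC.Tch
import Pool.Agent.H57.MP.Fo
import Pool.Agent.H57.MP.Mg

/-!
# H57-CV-TWV: the twisted pattern is the pattern `0` with changed phases
-/

set_option autoImplicit false

open scoped NumberField
open IsDedekindDomain
open scoped Classical

noncomputable section

namespace H57.CV

open H57.PC H57.LOW H57.BRA H63.MA H38.BB H38.BG H51.CUB H77.PT H57.MP H57.CC

variable {K : Type} [Field K] [NumberField K] {p : ℕ} {ζ : K} {Ω : Type} [Field Ω] [Algebra K Ω]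
  [IsAlgClosure K Ω] {m l w N k : ℕ} {P R : Type} [Group P] [Group R]

theorem fB_tw [NeZero p] (Dg : GP p m l w N P R) (χ : Fin N → Fin l → ZMod p)
    (hχ : InJ0 Dg χ) (a : Fin N × Fin 3) (x : Fin w → ZMod p) :
    fB Dg χ a x = fB Dg 0 a x * ep p (xi Dg (χ a.1) a.1 x) := by
  unfold fB
  by_cases ha : a.2 = 0
  · rw [if_pos ha, if_pos ha]
    unfold fA
    by_cases hx : x = 0
    · rw [if_pos hx]
      have h1 : xi Dg (χ a.1) a.1 x = 0 := by
        unfold H57.PC.xi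
        split_ifs with h
        · exact hχ.1 a.1 _ (h.choose_spec.trans hx)
        · rfl
      rw [h1, ep_zero, mul_one]
    · rw [if_neg hx, zero_mul]
  · rw [if_neg ha, if_neg ha]
    unfold fC
    by_cases hx : x ∈ Dg.Bi a.1
    · rw [if_pos hx, if_pos hx]
      have h1 : xi Dg ((0 : Fin N → Fin l → ZMod p) a.1) a.1 x = 0 := by
        unfold H57.PC.xi
        split_ifs with h
        · unfold dt
          simp
        · rfl
      rw [h1, ep_zero, mul_one]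
    · rw [if_neg hx, if_neg hx, zero_mul]

theorem fB_bi [NeZero p] (Dg : GP p m l w N P R) (a : Fin N × Fin 3) (x : Fin w → ZMod p)
    (hx : x ∉ Dg.Bi a.1) : fB Dg 0 a x = 0 := by
  unfold fB
  by_cases ha : a.2 = 0
  · rw [if_pos ha]
    unfold fA
    rw [if_neg]
    rintro rfl
    exact hx (Submodule.zero_mem _)
  · rw [if_neg ha]
    unfold fC
    rw [if_neg hx]

theorem ep_prod [NeZero p] (hp : p.Prime) {ι : Type} (s : Finset ι) (g : ι → ZMod p) :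
    ep p (∑ j ∈ s, g j) = ∏ j ∈ s, ep p (g j) := by
  induction s using Finset.induction_on with
  | empty => rw [Finset.sum_empty, Finset.prod_empty, ep_zero]
  | insert x s hx ih => rw [Finset.sum_insert hx, Finset.prod_insert hx, ep_add hp, ih]

theorem twv [NeZero p] [Finite P] [Finite R] (hp : p.Prime) (h2 : p ≠ 2)
    (hζ : IsPrimitiveRoot ζ p) (hz : Z2 p K) (D : RD K p ζ) {L : LDs D.toRD0 Ω} (Q : DP K Ω)
    (Fr : FR L) (Dg : GP p m l w N P R) (χ : Fin N → Fin l → ZMod p) (hχ : InJ0 Dg χ)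
    (X : VP K Ω p l k R) (hX : X.Ok D.toRD0 Q) (ρ₁ : Gal(Ω/K) →* R) (h₁ : H38.ML.FT ρ₁)
    (hr : ∀ j, X.r j = ρ₁ (X.σ j)) :
    ∃ (c : ℂ) (η₀ : Fin k → Fin l → ZMod p) (θ : Fin N → Fin m → ZMod p), ‖c‖ = 1 ∧
      (∀ i, dt (θ i) (Dg.s i) = 0) ∧
      ∀ (η : Fin k → Fin l → ZMod p) (b : Fin m → Kˣ), BS2 D.toRD0 b ∅ → ∀ Y : ℝ,
        PCX Dg Fr b (X.wi η) (fun _ _ => 0) (fB Dg χ) Y =
          c * PCX Dg Fr b (X.wi (η + η₀)) θ (fB Dg 0) Y := by
  obtain ⟨c, η₀, θ, hc, hθ, h⟩ := tch hp h2 hζ hz D (L := L) Q Fr Dg χ hχ X hX ρ₁ h₁ hr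
  refine ⟨c, η₀, θ, hc, hθ, fun η b hb Y => ?_⟩
  unfold PCX
  rw [Finset.mul_sum]
  refine Finset.sum_congr rfl fun f hf => ?_
  by_cases hcd : Wc D.toRD0 (UM N Y) ∅ Y f ∧ SpR Dg.cr b (clw (UM N Y) f)
  · rw [if_pos hcd, if_pos hcd]
    have hd : Dj f := hcd.1.1
    have hG : ∀ i, ∀ v ∈ clw (UM N Y) f i, D.toRD0.Gd v := by
      intro i v hv
      obtain ⟨t, ht⟩ := mg_mem.1 hv
      simp only [Fintype.mem_piFinset] at hf
      exact (aexp_mem_GF.1 (hf (i, t))).2 v ht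
    have h0 : thp D.toRD0 Dg.cr b (fun (_ : Fin N) (_ : Fin m) => (0 : ZMod p))
        (clw (UM N Y) f) = 0 := by
      unfold thp dt
      simp
    rw [h0, ep_zero, mul_one]
    have key : (∑ ρ ∈ RHf L Dg b ∅ (fun _ _ => 1) (clw (UM N Y) f),
        (X.wi η).ph Dg ρ * ∏ a, ∏ v ∈ f a, fB Dg χ a (cq Dg Fr ρ v)) =
        c * (∑ ρ ∈ RHf L Dg b ∅ (fun _ _ => 1) (clw (UM N Y) f),
          (X.wi (η + η₀)).ph Dg ρ * ∏ a, ∏ v ∈ f a, fB Dg 0 a (cq Dg Fr ρ v)) *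
          ep p (thp D.toRD0 Dg.cr b θ (clw (UM N Y) f)) := by
      rw [Finset.mul_sum, Finset.sum_mul]
      refine Finset.sum_congr rfl fun ρ hρ => ?_
      by_cases hb1 : ∀ i, ∀ v ∈ clw (UM N Y) f i, cq Dg Fr ρ v ∈ Dg.Bi i
      · have h3 := h η b hb (clw (UM N Y) f) (mg_dj hd) hG ρ hρ hb1
        have h4 : ∏ a, ∏ v ∈ f a, fB Dg χ a (cq Dg Fr ρ v) =
            (∏ a, ∏ v ∈ f a, fB Dg 0 a (cq Dg Fr ρ v)) *
              ep p (∑ i, ∑ v ∈ clw (UM N Y) f i, xi Dg (χ i) i (cq Dg Fr ρ v)) := by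
          rw [← mg_sum Y hd fun i v => xi Dg (χ i) i (cq Dg Fr ρ v), ep_prod hp,
            ← Finset.prod_mul_distrib]
          refine Finset.prod_congr rfl fun a _ => ?_
          rw [ep_prod hp, ← Finset.prod_mul_distrib]
          exact Finset.prod_congr rfl fun v _ => fB_tw Dg χ hχ a _
        rw [h4]
        calc (X.wi η).ph Dg ρ * ((∏ a, ∏ v ∈ f a, fB Dg 0 a (cq Dg Fr ρ v)) *
              ep p (∑ i, ∑ v ∈ clw (UM N Y) f i, xi Dg (χ i) i (cq Dg Fr ρ v))) =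
            ((X.wi η).ph Dg ρ *
              ep p (∑ i, ∑ v ∈ clw (UM N Y) f i, xi Dg (χ i) i (cq Dg Fr ρ v))) *
              ∏ a, ∏ v ∈ f a, fB Dg 0 a (cq Dg Fr ρ v) := by ring
          _ = _ := by
            rw [h3]
            ring
      · push Not at hb1
        obtain ⟨i, v, hv, hvb⟩ := hb1
        obtain ⟨t, ht⟩ := mg_mem.1 hv
        have h5 : ∏ a, ∏ v ∈ f a, fB Dg 0 a (cq Dg Fr ρ v) = 0 :=
          Finset.prod_eq_zero (Finset.mem_univ (i, t))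
            (Finset.prod_eq_zero ht (fB_bi Dg (i, t) _ hvb))
        have h6 : ∏ a, ∏ v ∈ f a, fB Dg χ a (cq Dg Fr ρ v) = 0 :=
          Finset.prod_eq_zero (Finset.mem_univ (i, t))
            (Finset.prod_eq_zero ht (by rw [fB_tw Dg χ hχ, fB_bi Dg (i, t) _ hvb, zero_mul]))
        rw [h5, h6]
        ring
    rw [key]
    ring
  · rw [if_neg hcd, if_neg hcd, mul_zero]

end H57.CV
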