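import Pool.Agent.H57.CC.Def
import Pool.Agent.H51.CUD.DDef

/-!
# H57-CV-DEF: the main pattern with a phase at S0 (MP_b39724_nt), definitions

`PCV`: `PCU` with the extra factor `ep (Lam ρ)` in the sum over `ρ`.
-/

set_option autoImplicit false

open scoped NumberField
open IsDedekindDomain
open scoped Classical

noncomputable section

namespace H57.CV

open H57.PC H57.LOW H63.MA H38.BB H38.BG H51.CUB H77.PT H57.MP H51.CUD H57.CC

variable {K : Type} [Field K] [NumberField K] {p : ℕ} {ζ : K} {D : RD0 K p ζ} {Ω : Type}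
  [Field Ω] [Algebra K Ω] {m l w N : ℕ} {P R : Type} [Group P] [Group R] {J : Type} [Fintype J]

/-- the sum over the families with windows with an extra phase of level one and a phase at `S0` -/
def PCV [NeZero p] {L : LDs D Ω} (Dg : GP p m l w N P R) (Λ : SF D Ω Dg) (Fr : FR L)
    (U : WY N J) (φ : J → (Fin w → ZMod p) → ℂ) (b : Fin m → Kˣ) (E : Finset (Pl K))
    (ε : Pl K → Gal(Ω/K) → R) (u : J → Pl K → ZMod p) (lam : J → J → ZMod p)
    (ω : Finset J → ℂ) (Y : ℝ) : ℂ :=
  ∑ h ∈ Fintype.piFinset (fun _ : J => GF D (2 * Y)),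
    if Wc D U E Y h ∧ SpR Dg.cr b (clw U h) then
      ω (spt h) * ((wl ((∏ a, nr (h a)) / Y) : ℝ) : ℂ) *
        (∑ ρ ∈ RHf L Dg b E ε (clw U h),
          ep p (Lam Dg Λ ρ) * ∏ a, ∏ v ∈ h a, φ a (cq Dg Fr ρ v)) *
          ep p (UU D u lam h)
    else 0

end H57.CV
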