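import Pool.Agent.H57.CV.Def
import Pool.Agent.H57.MP.Mg
import Pool.Agent.H89.BRG.Qd

/-!
# H57-CV-EXV: the phase of the virtual primes as an average of phases at S0
-/

set_option autoImplicit false

open scoped NumberField
open IsDedekindDomain
open scoped Classical

noncomputable section

namespace H57.CV

open H57.PC H57.LOW H57.BRA H63.MA H38.BB H38.BG H51.CUB H77.PT H57.MP H51.CUD H57.CC H89.BRG

section grp

variable {p m l w N : ℕ} {P R : Type} [Group P] [Group R]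

/-- a section of `π` with a given value -/
def sec (Dg : GP p m l w N P R) (r₀ : R) (x : Multiplicative (Fin m → ZMod p)) : R :=
  if x = Dg.π r₀ then r₀ else Function.surjInv Dg.πs x

theorem sec_pi (Dg : GP p m l w N P R) (r₀ : R) (x : Multiplicative (Fin m → ZMod p)) :
    Dg.π (sec Dg r₀ x) = x := by
  unfold sec
  split_ifs with h
  · exact h.symm
  · exact Function.surjInv_eq Dg.πs x

theorem sec_eq (Dg : GP p m l w N P R) (r₀ r : R) (h : Dg.π r = Dg.π r₀) :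
    sec Dg r₀ (Dg.π r) = r₀ := by
  unfold sec
  rw [if_pos h]

/-- the `V`-part -/
def vpX (Dg : GP p m l w N P R) (r₀ r : R) (c : Fin l) : ZMod p :=
  Dg.cv c (r * (sec Dg r₀ (Dg.π r))⁻¹)

theorem vpX_mul (Dg : GP p m l w N P R) (r₀ v r : R) (hv : Dg.π v = 1) (c : Fin l) :
    vpX Dg r₀ (v * r) c = Dg.cv c v + vpX Dg r₀ r c := by
  unfold vpX
  rw [map_mul, hv, one_mul, mul_assoc]
  refine Dg.vadd c v _ hv ?_
  rw [map_mul, map_inv, sec_pi, mul_inv_cancel]

theorem vpX_eq (Dg : GP p m l w N P R) (r₀ r : R) (h : Dg.π r = Dg.π r₀) (c : Fin l) :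
    vpX Dg r₀ r c = Dg.cv c (r * r₀⁻¹) := by
  unfold vpX
  rw [sec_eq Dg r₀ r h]

end grp

theorem ex_four {p : ℕ} [NeZero p] (hp : p.Prime) {k m : ℕ} (a : Fin k → Fin m → ZMod p) :
    ∑ μ : Fin k → Fin m → ZMod p, ep p (∑ j, dt (μ j) (a j)) =
      if ∀ j, a j = 0 then ((p : ℂ) ^ m) ^ k else 0 := by
  have hsum : ∀ (s : Finset (Fin k)) (g : Fin k → ZMod p),
      ep p (∑ j ∈ s, g j) = ∏ j ∈ s, ep p (g j) := by
    intro s g
    induction s using Finset.induction_on with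
    | empty => rw [Finset.sum_empty, Finset.prod_empty, ep_zero]
    | insert x s hx ih => rw [Finset.sum_insert hx, Finset.prod_insert hx, ep_add hp, ih]
  have h1 : ∏ j : Fin k, (∑ ν : Fin m → ZMod p, ep p (dt ν (a j))) =
      ∑ μ : Fin k → Fin m → ZMod p, ep p (∑ j, dt (μ j) (a j)) := by
    rw [Finset.prod_univ_sum]
    rw [Fintype.piFinset_univ]
    refine Finset.sum_congr rfl fun μ _ => ?_
    rw [hsum]
  rw [← h1]
  simp only [fo_zero hp]
  by_cases h : ∀ j, a j = 0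
  · rw [if_pos h]
    rw [Finset.prod_congr rfl fun j _ => if_pos (h j)]
    rw [Finset.prod_const, Finset.card_univ, Fintype.card_fin]
  · rw [if_neg h]
    push Not at h
    obtain ⟨j, hj⟩ := h
    exact Finset.prod_eq_zero (Finset.mem_univ j) (if_neg hj)

variable {K : Type} [Field K] [NumberField K] {p : ℕ} {ζ : K} {D : RD0 K p ζ} {Ω : Type}
  [Field Ω] [Algebra K Ω] {m l w N k : ℕ} {P R : Type} [Group P] [Group R]

/-- the phase at `S0` of the virtual primes -/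
def SX (Dg : GP p m l w N P R) {Q : DP K Ω} (X : VP K Ω p l k R) (hX : X.Ok D Q) :
    SF D Ω Dg where
  Q := Q
  s := k
  pl j := (hX.mem j).choose
  hpl j := (hX.mem j).choose_spec.1
  σ := X.σ
  mem j := (hX.mem j).choose_spec.2
  c := X.η
  vp j := vpX Dg (X.r j)
  hvp j v r hv c := vpX_mul Dg (X.r j) v r hv c

theorem ph_lam [NeZero p] (Dg : GP p m l w N P R) {Q : DP K Ω} (X : VP K Ω p l k R)
    (hX : X.Ok D Q) (ρ : Gal(Ω/K) →* R) :
    X.ph Dg ρ = ep p (H51.CUD.Lam Dg (SX Dg X hX) ρ) *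
      if ∀ j, Dg.π (ρ (X.σ j)) = Dg.π (X.r j) then 1 else 0 := by
  unfold VP.ph
  by_cases h : ∀ j, Dg.π (ρ (X.σ j)) = Dg.π (X.r j)
  · rw [if_pos h, if_pos h, mul_one]
    unfold H51.CUD.Lam
    congr 1
    refine Finset.sum_congr rfl fun j _ => ?_
    show _ = dt (X.η j) (vpX Dg (X.r j) (ρ (X.σ j)))
    congr 1
    funext c
    exact (vpX_eq Dg (X.r j) _ (h j) c).symm
  · rw [if_neg h, if_neg h, mul_zero]

/-- the constant of the average -/
def exK (Dg : GP p m l w N P R) (ζ : K) (X : VP K Ω p l k R) (b : Fin m → Kˣ)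
    (μ : Fin k → Fin m → ZMod p) : ZMod p :=
  ∑ j, dt (μ j) (fun i => kk p ζ (b i) (X.σ j) - Multiplicative.toAdd (Dg.π (X.r j)) i)

/-- the phase of one prime of the average -/
def exU [NeZero p] (D : RD0 K p ζ) (Dg : GP p m l w N P R) (X : VP K Ω p l k R)
    (b : Fin m → Kˣ) (θ : Fin N → Fin m → ZMod p) (μ : Fin k → Fin m → ZMod p)
    (i : Fin N) (v : Pl K) : ZMod p :=
  dt (θ i) (fun c => D.LL v (b c)) + ∑ j, dt (μ j) (Dg.s i) * kk p ζ (D.pi v) (X.σ j)

theorem ex_akR [NeZero p] [IsAlgClosure K Ω] (hp : p.Prime) (hζ : IsPrimitiveRoot ζ p)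
    (Dg : GP p m l w N P R) (b : Fin m → Kˣ) (f : Fin N → Finset (Pl K)) (c : Fin m)
    (σ : Gal(Ω/K)) :
    kk p ζ (akR D Dg.cr b f c) σ =
      kk p ζ (b c) σ + ∑ i, ∑ v ∈ f i, Dg.s i c * kk p ζ (D.pi v) σ := by
  unfold akR
  rw [kk_mul_arg hp hζ, kk_prod_arg hp hζ]
  congr 1
  refine Finset.sum_congr rfl fun i _ => ?_
  rw [kk_prod_arg hp hζ]
  refine Finset.sum_congr rfl fun v _ => ?_
  show kk p ζ (D.pi v ^ (Dg.s i c).val) σ = _
  have h1 : ∀ n : ℕ, kk p ζ (D.pi v ^ n) σ = (n : ZMod p) * kk p ζ (D.pi v) σ := by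
    intro n
    induction n with
    | zero => rw [pow_zero, gkum_one_arg hp hζ, Nat.cast_zero, zero_mul]
    | succ n ih => rw [pow_succ, kk_mul_arg hp hζ, ih, Nat.cast_succ, add_mul, one_mul]
  rw [h1, ZMod.natCast_zmod_val]

theorem ex_LL [NeZero p] (hp : p.Prime) (hζ : IsPrimitiveRoot ζ p)
    (Dg : GP p m l w N P R) (b : Fin m → Kˣ) (f : Fin N → Finset (Pl K)) (c : Fin m)
    {v : Pl K} (hv : v ∉ D.S0) :
    D.LL v (akR D Dg.cr b f c) =
      D.LL v (b c) + ∑ i, ∑ v' ∈ f i, Dg.s i c * D.LL v (D.pi v') := by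
  unfold akR
  rw [LL_mul hp hζ D hv, aph_LL_prod hp hζ D hv]
  congr 1
  refine Finset.sum_congr rfl fun i _ => ?_
  rw [aph_LL_prod hp hζ D hv]
  refine Finset.sum_congr rfl fun v' _ => ?_
  show D.LL v (D.pi v' ^ (Dg.s i c).val) = _
  have h1 : ∀ n : ℕ, D.LL v (D.pi v' ^ n) = (n : ZMod p) * D.LL v (D.pi v') := by
    intro n
    induction n with
    | zero => rw [pow_zero, LL_one hp hζ D hv, Nat.cast_zero, zero_mul]
    | succ n ih => rw [pow_succ, LL_mul hp hζ D hv, ih, Nat.cast_succ, add_mul, one_mul]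
  rw [h1, ZMod.natCast_zmod_val]

theorem ex_dt1 {m : ℕ} (θ : Fin m → ZMod p) {ι : Type} (s : Finset ι) (x : ι → Fin m → ZMod p)
    (y : Fin m → ZMod p) :
    dt θ (fun c => y c + ∑ a ∈ s, x a c) = dt θ y + ∑ a ∈ s, dt θ (x a) := by
  unfold dt
  simp only [mul_add, Finset.sum_add_distrib, Finset.mul_sum]
  rw [Finset.sum_comm]

theorem ex_dt2 {m : ℕ} (θ : Fin m → ZMod p) (x : Fin m → ZMod p) (t : ZMod p) :
    dt θ (fun c => x c * t) = dt θ x * t := by
  unfold dt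
  rw [Finset.sum_mul]
  exact Finset.sum_congr rfl fun c _ => by ring

theorem ex_thp [NeZero p] (hp : p.Prime) (hζ : IsPrimitiveRoot ζ p)
    (Dg : GP p m l w N P R) (b : Fin m → Kˣ) (θ : Fin N → Fin m → ZMod p)
    (f : Fin N → Finset (Pl K)) (hf : ∀ i, ∀ v ∈ f i, v ∉ D.S0) :
    thp D Dg.cr b θ f =
      UU D (fun i v => dt (θ i) fun c => D.LL v (b c)) (fun i i' => dt (θ i) (Dg.s i')) f := by
  unfold thp UU
  refine Finset.sum_congr rfl fun i _ => Finset.sum_congr rfl fun v hv => ?_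
  have h1 : (fun c => D.LL v (akR D Dg.cr b f c)) = fun c => D.LL v (b c) +
      ∑ i', (fun i' c => Dg.s i' c * ∑ v' ∈ f i', D.LL v (D.pi v')) i' c := by
    funext c
    rw [ex_LL hp hζ Dg b f c (hf i v hv)]
    congr 1
    refine Finset.sum_congr rfl fun i' _ => ?_
    show _ = Dg.s i' c * _
    rw [Finset.mul_sum]
  rw [h1, ex_dt1]
  congr 1
  refine Finset.sum_congr rfl fun i' _ => ?_
  rw [ex_dt2]

theorem ex_v [NeZero p] [Finite P] [Finite R] [IsAlgClosure K Ω] (hp : p.Prime)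
    (hζ : IsPrimitiveRoot ζ p) {L : LDs D Ω} (Dg : GP p m l w N P R) (Fr : FR L) {Q : DP K Ω}
    (X : VP K Ω p l k R) (hX : X.Ok D Q) (b : Fin m → Kˣ) (hb : BS2 D b ∅)
    (θ : Fin N → Fin m → ZMod p) (φ : Fin N × Fin 3 → (Fin w → ZMod p) → ℂ) (Y : ℝ) :
    PCX Dg Fr b X θ φ Y = ((((p : ℂ) ^ m) ^ k)⁻¹) * ∑ μ : Fin k → Fin m → ZMod p,
      ep p (exK Dg ζ X b μ) * PCV Dg (SX Dg X hX) Fr (UM N Y) φ b ∅ (fun _ _ => 1)
        (fun a => exU D Dg X b θ μ a.1) (fun a a' => dt (θ a.1) (Dg.s a'.1))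
        (fun S => ((omL S : ℝ) : ℂ)) Y := by
  have hpp : (((p : ℂ) ^ m) ^ k) ≠ 0 := pow_ne_zero _ (fo_pw hp m)
  rw [eq_inv_mul_iff_mul_eq₀ hpp]
  unfold PCX PCV
  rw [Finset.mul_sum, Finset.sum_congr rfl fun μ _ =>
    Finset.mul_sum _ _ (ep p (exK Dg ζ X b μ)), Finset.sum_comm]
  refine Finset.sum_congr (by ext x; simp only [Fintype.mem_piFinset]) fun h hh => ?_
  by_cases hc : Wc D (UM N Y) ∅ Y h ∧ SpR Dg.cr b (clw (UM N Y) h)
  · simp only [if_pos hc]
    have hd : Dj h := hc.1.1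
    have hG : ∀ a, ∀ v ∈ h a, D.Gd v := by
      intro a v hv
      simp only [Fintype.mem_piFinset] at hh
      exact (aexp_mem_GF.1 (hh a)).2 v hv
    have hG' : ∀ i, ∀ v ∈ clw (UM N Y) h i, v ∉ D.S0 := by
      intro i v hv
      obtain ⟨t, ht⟩ := mg_mem.1 hv
      exact (hG (i, t) v ht).1
    rw [ex_thp hp hζ Dg b θ _ hG']
    -- the identity for one ρ
    have key : ∀ ρ ∈ RHf L Dg b ∅ (fun _ _ => 1) (clw (UM N Y) h),
        (((p : ℂ) ^ m) ^ k) * X.ph Dg ρ =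
          ∑ μ : Fin k → Fin m → ZMod p, ep p (exK Dg ζ X b μ) *
            ep p (∑ i, ∑ v ∈ clw (UM N Y) h i, ∑ j, dt (μ j) (Dg.s i) *
              kk p ζ (D.pi v) (X.σ j)) * ep p (H51.CUD.Lam Dg (SX Dg X hX) ρ) := by
      intro ρ hρ
      have hρ' : ρ ∈ RH L Dg b ∅ (fun _ _ => 1) (clw (UM N Y) h) := by
        unfold RHf at hρ
        split_ifs at hρ with hfin
        · exact (Set.Finite.mem_toFinset hfin).1 hρ
        · exact absurd hρ (Finset.notMem_empty _)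
      have hk := hρ'.2.1
      have hfour := ex_four hp (k := k) (m := m) (fun j i =>
        Multiplicative.toAdd (Dg.π (ρ (X.σ j))) i - Multiplicative.toAdd (Dg.π (X.r j)) i)
      have hiff : (∀ j : Fin k, (fun i => Multiplicative.toAdd (Dg.π (ρ (X.σ j))) i -
          Multiplicative.toAdd (Dg.π (X.r j)) i) = 0) ↔
          ∀ j, Dg.π (ρ (X.σ j)) = Dg.π (X.r j) := by
        refine forall_congr' fun j => ?_
        constructor
        · intro h0
          apply Multiplicative.toAdd.injective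
          funext i
          exact sub_eq_zero.1 (congrFun h0 i)
        · intro h0
          funext i
          rw [h0, sub_self]
          rfl
      rw [ph_lam Dg X hX ρ, ← Finset.sum_mul, mul_comm (ep p (H51.CUD.Lam Dg (SX Dg X hX) ρ)), ← mul_assoc]
      congr 1
      have e1 : (((p : ℂ) ^ m) ^ k) * (if ∀ j, Dg.π (ρ (X.σ j)) = Dg.π (X.r j) then 1 else 0) =
          if ∀ j : Fin k, (fun i => Multiplicative.toAdd (Dg.π (ρ (X.σ j))) i -
          Multiplicative.toAdd (Dg.π (X.r j)) i) = 0 then ((p : ℂ) ^ m) ^ k else 0 := by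
        by_cases h0 : ∀ j, Dg.π (ρ (X.σ j)) = Dg.π (X.r j)
        · rw [if_pos h0, if_pos (hiff.2 h0), mul_one]
        · rw [if_neg h0, if_neg (fun h' => h0 (hiff.1 h')), mul_zero]
      rw [e1, ← hfour]
      refine Finset.sum_congr rfl fun μ _ => ?_
      rw [← ep_add hp]
      congr 1
      unfold exK
      have e2 : ∑ i, ∑ v ∈ clw (UM N Y) h i, ∑ j, dt (μ j) (Dg.s i) *
          kk p ζ (D.pi v) (X.σ j) = ∑ j, ∑ i, dt (μ j) (Dg.s i) *
            ∑ v ∈ clw (UM N Y) h i, kk p ζ (D.pi v) (X.σ j) := by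
        rw [Finset.sum_comm]
        refine Finset.sum_congr rfl fun i _ => ?_
        rw [Finset.sum_comm]
        refine Finset.sum_congr rfl fun j _ => ?_
        rw [Finset.mul_sum]
      rw [e2, ← Finset.sum_add_distrib]
      refine Finset.sum_congr rfl fun j _ => ?_
      have e3 : (fun i => Multiplicative.toAdd (Dg.π (ρ (X.σ j))) i -
          Multiplicative.toAdd (Dg.π (X.r j)) i) = fun c =>
          (fun c => kk p ζ (b c) (X.σ j) - Multiplicative.toAdd (Dg.π (X.r j)) c) c +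
          ∑ i, (fun i c => Dg.s i c * ∑ v ∈ clw (UM N Y) h i, kk p ζ (D.pi v) (X.σ j)) i c := by
        funext c
        rw [← hk (X.σ j) c, ex_akR hp hζ Dg b _ c (X.σ j)]
        simp only [Finset.mul_sum]
        ring
      rw [e3, ex_dt1]
      congr 1
      refine Finset.sum_congr rfl fun i _ => ?_
      rw [ex_dt2]
    have hUU : ∀ μ : Fin k → Fin m → ZMod p,
        UU D (fun a => exU D Dg X b θ μ a.1) (fun a a' => dt (θ a.1) (Dg.s a'.1)) h =
        UU D (fun i v => dt (θ i) fun c => D.LL v (b c)) (fun i i' => dt (θ i) (Dg.s i'))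
            (clw (UM N Y) h) +
          ∑ i, ∑ v ∈ clw (UM N Y) h i, ∑ j, dt (μ j) (Dg.s i) * kk p ζ (D.pi v) (X.σ j) := by
      intro μ
      rw [mg_uu Y hd (exU D Dg X b θ μ) (fun i i' => dt (θ i) (Dg.s i'))]
      unfold UU exU
      rw [← Finset.sum_add_distrib]
      refine Finset.sum_congr rfl fun i _ => ?_
      rw [← Finset.sum_add_distrib]
      refine Finset.sum_congr rfl fun v _ => ?_
      ring
    simp only [hUU, ep_add hp]
    have e5 : ∀ A B T : ℂ, (((p : ℂ) ^ m) ^ k) * (A * B *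
        (∑ ρ ∈ RHf L Dg b ∅ (fun _ _ => 1) (clw (UM N Y) h), X.ph Dg ρ *
          ∏ a, ∏ v ∈ h a, φ a (cq Dg Fr ρ v)) * T) =
        ∑ μ : Fin k → Fin m → ZMod p, ep p (exK Dg ζ X b μ) * (A * B *
          (∑ ρ ∈ RHf L Dg b ∅ (fun _ _ => 1) (clw (UM N Y) h),
            ep p (H51.CUD.Lam Dg (SX Dg X hX) ρ) * ∏ a, ∏ v ∈ h a, φ a (cq Dg Fr ρ v)) *
          (T * ep p (∑ i, ∑ v ∈ clw (UM N Y) h i, ∑ j, dt (μ j) (Dg.s i) *
              kk p ζ (D.pi v) (X.σ j)))) := by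
      intro A B T
      have e6 : (((p : ℂ) ^ m) ^ k) * (A * B *
        (∑ ρ ∈ RHf L Dg b ∅ (fun _ _ => 1) (clw (UM N Y) h), X.ph Dg ρ *
          ∏ a, ∏ v ∈ h a, φ a (cq Dg Fr ρ v)) * T) = A * B * T *
          ∑ ρ ∈ RHf L Dg b ∅ (fun _ _ => 1) (clw (UM N Y) h),
            ((((p : ℂ) ^ m) ^ k) * X.ph Dg ρ) * ∏ a, ∏ v ∈ h a, φ a (cq Dg Fr ρ v) := by
        simp only [Finset.mul_sum, Finset.sum_mul]
        refine Finset.sum_congr rfl fun ρ _ => ?_
        ring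
      rw [e6, Finset.sum_congr rfl fun ρ hρ => by rw [key ρ hρ]]
      simp only [Finset.mul_sum, Finset.sum_mul]
      rw [Finset.sum_comm]
      refine Finset.sum_congr rfl fun μ _ => ?_
      refine Finset.sum_congr rfl fun ρ _ => ?_
      ring
    exact e5 _ _ _
  · simp only [if_neg hc, mul_zero, Finset.sum_const_zero]

end H57.CV
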