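import Pool.Agent.H57.CV.Def
import Pool.Agent.H51.CUD.DN3
import Pool.Agent.H51.CUD.DNM
import Pool.Agent.H57.BRA.Def

/-!
# H57-CV-LV: the two input bounds with a phase at S0 (helper51)
-/

set_option autoImplicit false

open scoped NumberField
open IsDedekindDomain
open scoped Classical

noncomputable section

namespace H57.CV

open H57.PC H57.LOW H57.BRA H63.MA H38.BB H38.BG H51.CUB H77.PT H57.MP H51.CUD H57.CC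

variable {K : Type} [Field K] [NumberField K] {p : ℕ} {ζ : K} {Ω : Type} [Field Ω] [Algebra K Ω]
  [IsAlgClosure K Ω] {m l w N : ℕ} {P R : Type} [Group P] [Group R]

theorem lllV [NeZero p] [Finite P] [Finite R] (hp : p.Prime) (hp2 : MOne p K)
    (hζ : IsPrimitiveRoot ζ p) (hz : Z2 p K) (D : RD K p ζ) (L : LDs D.toRD0 Ω) (Fr : FR L)
    (Dg : GP p m l w N P R) (Λ : SF D.toRD0 Ω Dg) (J : Type) [Fintype J] (M A : ℝ) :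
    ∃ C Y₀ : ℝ, 0 < C ∧ 3 ≤ Y₀ ∧ ∀ Y : ℝ, Y₀ ≤ Y → ∀ b : Fin m → Kˣ, BS2 D.toRD0 b ∅ →
      ∀ T : TY N w p J, (∀ a, 0 ≤ T.wt a ∧ T.wt a ≤ M) →
      ∀ (u : J → Pl K → ZMod p) (lam : J → J → ZMod p) (ω : Finset J → ℂ), (∀ S, ‖ω S‖ ≤ 1) →
      ∀ a₁ a₂ a₃ : J, Th3 Dg T a₁ a₂ a₃ ≠ 0 →
        (∀ a ∈ ({a₁, a₂, a₃} : Finset J), Real.exp (Real.log (Real.log Y) ^ 5) ≤ T.lo a) →
        (∀ S, ω S ≠ 0 → a₁ ∈ S ∧ a₂ ∈ S ∧ a₃ ∈ S) →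
        ‖TSV Dg Λ Fr T b ∅ (fun _ _ => 1) u lam ω Y‖ ≤ C * Y * Real.log Y ^ (-A) := by
  obtain ⟨C, Y₀, hC, hY₀, h⟩ := lllV_p hp hp2 hζ hz D L Fr Dg Λ J M A
  refine ⟨C, Y₀, hC, hY₀, fun Y hY b hb T hT u lam ω hω a₁ a₂ a₃ h1 h2 h3 => ?_⟩
  refine h Y hY ∅ b hb ?_ _ T hT u lam ω hω a₁ a₂ a₃ h1 h2 h3
  unfold nr
  rw [Finset.prod_empty]
  exact Real.one_le_exp (Even.pow_nonneg (by decide) _)

theorem lls_mainV [NeZero p] [Finite P] [Finite R] (hp : p.Prime) (hp2 : MOne p K)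
    (hζ : IsPrimitiveRoot ζ p) (hz : Z2 p K) (D : RD K p ζ) (L : LDs D.toRD0 Ω) (Fr : FR L)
    (Dg : GP p m l w N P R) (Λ : SF D.toRD0 Ω Dg) (J : Type) [Fintype J] (M A : ℝ) :
    ∃ C Y₀ : ℝ, 0 < C ∧ 3 ≤ Y₀ ∧ ∀ Y : ℝ, Y₀ ≤ Y → ∀ b : Fin m → Kˣ, BS2 D.toRD0 b ∅ →
      ∀ T : TY N w p J, (∀ a, 0 ≤ T.wt a ∧ T.wt a ≤ M) →
      ∀ (u : J → Pl K → ZMod p) (lam : J → J → ZMod p) (ω : Finset J → ℂ), (∀ S, ‖ω S‖ ≤ 1) →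
      ∀ z : ℝ, Real.exp (Real.log (Real.log Y) ^ 4) ≤ z →
      ∀ a₁ a₂ : J,
        (∀ a, T.hi a ≤ z ∨
          ∀ v : Fin l → ZMod p, dt (T.psi a) (Dg.β v (Dg.s (T.cls a))) = 0) →
        (∀ a ∈ ({a₁, a₂} : Finset J),
          ∀ v : Fin l → ZMod p, dt (T.psi a) (Dg.β v (Dg.s (T.cls a))) = 0) →
        (∀ a ∈ ({a₁, a₂} : Finset J), z ^ (Real.log (Real.log Y) ^ 2) ≤ T.lo a) →
        ((∃ a₀ : J, dt (T.psi a₀) (Dg.β (Dg.kV (Dg.s (T.cls a₁)) (Dg.s (T.cls a₂)))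
          (Dg.s (T.cls a₀))) ≠ 0 ∧ ∀ S, ω S ≠ 0 → a₀ ∈ S) ∨
          Nps Dg Λ (Dg.kV (Dg.s (T.cls a₁)) (Dg.s (T.cls a₂)))) →
        (∀ S, ω S ≠ 0 → a₁ ∈ S ∧ a₂ ∈ S) →
        ‖TSV Dg Λ Fr T b ∅ (fun _ _ => 1) u lam ω Y‖ ≤ C * Y * Real.log Y ^ (-A) := by
  obtain ⟨C, Y₀, hC, hY₀, h⟩ := lls_mainV_p hp hp2 hζ hz D L Fr Dg Λ J M A
  refine ⟨C, Y₀, hC, hY₀, fun Y hY b hb T hT u lam ω hω z hz1 a₁ a₂ h1 h2 h3 h4 h5 => ?_⟩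
  refine h Y hY ∅ b hb ?_ _ T hT u lam ω hω z hz1 a₁ a₂ h1 h2 h3 h4 h5
  unfold nr
  rw [Finset.prod_empty]
  exact Real.one_le_exp (Even.pow_nonneg (by decide) _)

end H57.CV
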