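import Pool.Agent.H57.CV.Tuv
import Pool.Agent.H57.CV.Lv
import Pool.Agent.H57.MP.Ma

/-!
# H57-CV-MAV: the linked triples of large primes are negligible, with a phase at S0
-/

set_option autoImplicit false

open scoped NumberField
open IsDedekindDomain
open scoped Classical

noncomputable section

namespace H57.CV

open H57.PC H57.LOW H57.BRA H63.MA H38.BB H38.BG H51.CUB H77.PT H57.MP H51.CUD H57.CC

variable {K : Type} [Field K] [NumberField K] {p : ℕ} {ζ : K} {Ω : Type} [Field Ω] [Algebra K Ω]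
  [IsAlgClosure K Ω] {m l w N : ℕ} {P R : Type} [Group P] [Group R]

theorem mv_a [NeZero p] [Finite P] [Finite R] (hp : p.Prime) (hp2 : MOne p K)
    (hζ : IsPrimitiveRoot ζ p) (hz : Z2 p K) (D : RD K p ζ) (L : LDs D.toRD0 Ω) (Fr : FR L)
    (Dg : GP p m l w N P R) (Λ : SF D.toRD0 Ω Dg) (A : ℝ) :
    ∃ C Y₀ : ℝ, 0 < C ∧ 3 ≤ Y₀ ∧ ∀ Y : ℝ, Y₀ ≤ Y → ∀ b : Fin m → Kˣ, BS2 D.toRD0 b ∅ →
      ∀ (u : Fin N × Fin 3 → Pl K → ZMod p)
        (lam : Fin N × Fin 3 → Fin N × Fin 3 → ZMod p),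
        ‖PCV Dg Λ Fr (UM N Y) (fun a => fA Dg a.1) b ∅ (fun _ _ => 1) u lam (fun S => ((omL S : ℝ) : ℂ)) Y -
            ∑ χ ∈ J0 Dg,
              PCV Dg Λ Fr (UM N Y) (fB Dg χ) b ∅ (fun _ _ => 1) u lam (fun S => ((omL S : ℝ) : ℂ)) Y‖ ≤
          C * Y * Real.log Y ^ (-A) := by
  obtain ⟨C, Y₀, hC, hY₀, h⟩ := lllV hp hp2 hζ hz D L Fr Dg Λ
    ((Fin N × Fin 3) × (Fin w → ZMod p)) (∑ j, (Dg.Wn j : ℝ)) A
  refine ⟨((maB Dg).card + 1) * C, max Y₀ (Real.exp (Real.exp 1)), by positivity,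
    hY₀.trans (le_max_left _ _), fun Y hY b hb u lam => ?_⟩
  have hY1 : Y₀ ≤ Y := (le_max_left _ _).trans hY
  have hY2 : Real.exp (Real.exp 1) ≤ Y := (le_max_right _ _).trans hY
  have hYp : 0 < Y := lt_of_lt_of_le (by linarith) hY1
  have hL : 0 < Real.log Y := Real.log_pos (by linarith)
  set c : Fin N × Fin 3 → (Fin w → ZMod p) → ℝ := fun a ν => cA Dg a.1 ν with hc
  set U := UM N Y with hU
  have hI : ∀ S : Finset ((Fin N × Fin 3) × (Fin w → ZMod p)),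
      @Finset.image _ _ (fun a b => Classical.propDecidable (a = b)) Prod.fst S =
        S.image Prod.fst := by
    intro S
    ext x
    simp only [Finset.mem_image]
  have e1 : PCV Dg Λ Fr U (fun a => fA Dg a.1) b ∅ (fun _ _ => 1) u lam (fun S => ((omL S : ℝ) : ℂ)) Y =
      TSV Dg Λ Fr (U.ex c) b ∅ (fun _ _ => 1) (fun a => u a.1) (fun a a' => lam a.1 a'.1)
        (fun S => ((omL (S.image Prod.fst) : ℝ) : ℂ)) Y := by
    have e0 := pcv_ts hp Dg Λ Fr U c b ∅ (fun _ _ => 1) u lam (fun S => ((omL S : ℝ) : ℂ)) Y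
    simp only [hI] at e0
    rw [← e0]
    congr 1
    funext a x
    exact fA_cf hp Dg a.1 x
  have e2 : ∀ χ ∈ J0 Dg,
      PCV Dg Λ Fr U (fB Dg χ) b ∅ (fun _ _ => 1) u lam (fun S => ((omL S : ℝ) : ℂ)) Y =
      TSV Dg Λ Fr (U.ex c) b ∅ (fun _ _ => 1) (fun a => u a.1) (fun a a' => lam a.1 a'.1)
        (fun S => if S ⊆ Sx Dg χ then ((omL (S.image Prod.fst) : ℝ) : ℂ) else 0) Y := by
    intro χ hχ
    have e0 := tsv_sub hp Dg Λ Fr U c (Sx Dg χ) b ∅ (fun _ _ => 1) u lam (fun S => ((omL S : ℝ) : ℂ)) Y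
    simp only [hI] at e0
    rw [e0]
    congr 1
    funext a x
    refine (fB_cf hp Dg χ hχ a x).trans (Finset.sum_congr rfl fun ν _ => ?_)
    by_cases hm : (a, ν) ∈ Sx Dg χ
    · rw [if_pos hm, if_pos hm]
    · rw [if_neg hm, if_neg hm]
  rw [e1, Finset.sum_congr rfl e2, ← tsv_sum, ← tsv_sub2]
  have key : ∀ S : Finset ((Fin N × Fin 3) × (Fin w → ZMod p)),
      ((omL (S.image Prod.fst) : ℝ) : ℂ) -
        (∑ χ ∈ J0 Dg, if S ⊆ Sx Dg χ then ((omL (S.image Prod.fst) : ℝ) : ℂ) else 0) =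
      if FulL (S.image Prod.fst) ∧ ¬ Ul Dg S then 1 else 0 := by
    intro S
    unfold omL
    by_cases hF : FulL (S.image Prod.fst)
    · rw [if_pos hF]
      have h3 := ul_sum Dg S hF
      rw [Complex.ofReal_one, h3]
      by_cases hUl : Ul Dg S
      · rw [if_pos hUl, if_neg (fun h => h.2 hUl), sub_self]
      · rw [if_neg hUl, if_pos ⟨hF, hUl⟩, sub_zero]
    · rw [if_neg hF, if_neg (fun h => hF h.1), Complex.ofReal_zero, zero_sub, neg_eq_zero]
      refine Finset.sum_eq_zero fun χ _ => ?_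
      split_ifs <;> rfl
  have hb1 : ‖TSV Dg Λ Fr (U.ex c) b ∅ (fun _ _ => 1) (fun a => u a.1) (fun a a' => lam a.1 a'.1)
      (fun S => ((omL (S.image Prod.fst) : ℝ) : ℂ) -
        (∑ χ ∈ J0 Dg, if S ⊆ Sx Dg χ then ((omL (S.image Prod.fst) : ℝ) : ℂ) else 0)) Y‖ ≤
      (maB Dg).card * (C * Y * Real.log Y ^ (-A)) := by
    refine tsv_bad Dg Λ Fr (U.ex c) b ∅ (fun _ _ => 1) (fun a => u a.1) (fun a a' => lam a.1 a'.1) (maB Dg)
      (fun t S => t.1 ∈ S ∧ t.2.1 ∈ S ∧ t.2.2 ∈ S) Y (C * Y * Real.log Y ^ (-A)) ?_ _ ?_ ?_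
    · intro t ht ω hω hω'
      unfold maB at ht
      obtain ⟨_, ⟨w1, w2, w3⟩, ht2⟩ := Finset.mem_filter.1 ht
      refine h Y hY1 b hb (U.ex c) ?_ _ _ ω hω t.1 t.2.1 t.2.2 ?_ ?_ hω'
      · intro a
        exact ⟨cA_nonneg Dg a.1.1 a.2, ma_cA_le Dg a.1.1 a.2⟩
      · unfold Th3 WY.ex
        simp only [hc]
        rw [if_neg (ma_cA_ne Dg _ _), if_neg (ma_cA_ne Dg _ _), if_neg (ma_cA_ne Dg _ _)]
        exact ht2
      · intro a ha
        rw [@Finset.mem_insert _ (fun a b => Classical.propDecidable (a = b)),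
          @Finset.mem_insert _ (fun a b => Classical.propDecidable (a = b)),
          Finset.mem_singleton] at ha
        rcases ha with rfl | rfl | rfl
        · exact ma_lo N hY2 _ w1
        · exact ma_lo N hY2 _ w2
        · exact ma_lo N hY2 _ w3
    · intro S
      simp only [key S]
      split_ifs
      · rw [norm_one]
      · rw [norm_zero]
        exact zero_le_one
    · intro S hS
      simp only [key S] at hS
      have h4 : FulL (S.image Prod.fst) ∧ ¬ Ul Dg S := by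
        by_contra hcon
        exact hS (if_neg hcon)
      have h5 := h4.2
      unfold Ul at h5
      push Not at h5
      obtain ⟨x, hx, y, hy, z, hz', x1, y1, z1, hne⟩ := h5
      refine ⟨(x, y, z), ?_, hx, hy, hz'⟩
      unfold maB
      rw [Finset.mem_filter]
      exact ⟨Finset.mem_univ _, ⟨x1, y1, z1⟩, hne⟩
  refine hb1.trans ?_
  have h6 : 0 ≤ C * Y * Real.log Y ^ (-A) := by positivity
  nlinarith

end H57.CV
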