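import Pool.Agent.H57.CV.Mav

/-!
# H57-CV-MXV: the pattern `fC Dg 0` with a nontrivial phase at S0 is negligible
-/

set_option autoImplicit false

open scoped NumberField
open IsDedekindDomain
open scoped Classical

noncomputable section

namespace H57.CV

open H57.PC H57.LOW H57.BRA H63.MA H38.BB H38.BG H51.CUB H77.PT H57.MP H51.CUD H57.CC

variable {K : Type} [Field K] [NumberField K] {p : ℕ} {ζ : K} {Ω : Type} [Field Ω] [Algebra K Ω]
  [IsAlgClosure K Ω] {m l w N : ℕ} {P R : Type} [Group P] [Group R]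

/-- the coefficients of `fC Dg 0` -/
def cC (Dg : GP p m l w N P R) (a : Fin N × Fin 3) (ν : Fin w → ZMod p) : ℝ :=
  if rs Dg a.1 ν = 0 then cA Dg a.1 ν else 0

theorem fC0_cC [NeZero p] (hp : p.Prime) (Dg : GP p m l w N P R) (a : Fin N × Fin 3)
    (x : Fin w → ZMod p) :
    fC Dg 0 a.1 x = ∑ ν, ((cC Dg a ν : ℝ) : ℂ) * ep p (dt ν x) := by
  rw [fC0_cf hp]
  refine Finset.sum_congr rfl fun ν _ => ?_
  unfold cC cA cB
  by_cases h : rs Dg a.1 ν = 0
  · rw [if_pos h, if_pos h, if_pos (Or.inr h)]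
  · rw [if_neg h, if_neg h]

theorem mv_thr {Y : ℝ} (hY : Real.exp (Real.exp 1) ≤ Y) :
    Real.exp (Real.log (Real.log Y) ^ 4) ≤ Real.exp (Real.log (Real.log Y) ^ 5) ∧
    Real.exp (Real.log (Real.log Y) ^ 5) ^ (Real.log (Real.log Y) ^ 2) ≤ thr Y 1 := by
  have h1 : (1 : ℝ) ≤ Real.log (Real.log Y) := by
    have e1 : Real.exp 1 ≤ Real.log Y := by
      rw [← Real.log_exp (Real.exp 1)]
      exact Real.log_le_log (Real.exp_pos _) hY
    rw [← Real.log_exp 1]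
    exact Real.log_le_log (Real.exp_pos _) e1
  refine ⟨Real.exp_le_exp.2 (pow_le_pow_right₀ h1 (by norm_num)), ?_⟩
  rw [← Real.exp_mul]
  unfold thr
  refine Real.exp_le_exp.2 ?_
  rw [← pow_add]
  exact pow_le_pow_right₀ h1 (by norm_num)

theorem mv_x [NeZero p] [Finite P] [Finite R] (hp : p.Prime) (hp2 : MOne p K)
    (hζ : IsPrimitiveRoot ζ p) (hz : Z2 p K) (D : RD K p ζ) (L : LDs D.toRD0 Ω) (Fr : FR L)
    (Dg : GP p m l w N P R) (Λ : SF D.toRD0 Ω Dg) (j k : Fin N)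
    (hn : Nps Dg Λ (Dg.kV (Dg.s j) (Dg.s k))) (A : ℝ) :
    ∃ C Y₀ : ℝ, 0 < C ∧ 3 ≤ Y₀ ∧ ∀ Y : ℝ, Y₀ ≤ Y → ∀ b : Fin m → Kˣ, BS2 D.toRD0 b ∅ →
      ∀ (u : Fin N × Fin 3 → Pl K → ZMod p)
        (lam : Fin N × Fin 3 → Fin N × Fin 3 → ZMod p),
        ‖PCV Dg Λ Fr (UM N Y) (fun a => fC Dg 0 a.1) b ∅ (fun _ _ => 1) u lam
            (fun S => ((omL S : ℝ) : ℂ)) Y‖ ≤ C * Y * Real.log Y ^ (-A) := by
  obtain ⟨C, Y₀, hC, hY₀, h⟩ := lls_mainV hp hp2 hζ hz D L Fr Dg Λ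
    ((Fin N × Fin 3) × (Fin w → ZMod p)) (∑ j, (Dg.Wn j : ℝ)) A
  let B : Finset (((Fin N × Fin 3) × (Fin w → ZMod p)) × ((Fin N × Fin 3) × (Fin w → ZMod p))) :=
    Finset.univ.filter fun t => t.1.1 = (j, 2) ∧ t.2.1 = (k, 2)
  refine ⟨(B.card + 1) * C, max Y₀ (Real.exp (Real.exp 1)), by positivity,
    hY₀.trans (le_max_left _ _), fun Y hY b hb u lam => ?_⟩
  have hY1 : Y₀ ≤ Y := (le_max_left _ _).trans hY
  have hY2 : Real.exp (Real.exp 1) ≤ Y := (le_max_right _ _).trans hY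
  have hYp : 0 < Y := lt_of_lt_of_le (by linarith) hY1
  have hL : 0 < Real.log Y := Real.log_pos (by linarith)
  obtain ⟨hz1, hz2⟩ := mv_thr hY2
  have hI : ∀ S : Finset ((Fin N × Fin 3) × (Fin w → ZMod p)),
      @Finset.image _ _ (fun a b => Classical.propDecidable (a = b)) Prod.fst S =
        S.image Prod.fst := by
    intro S
    ext x
    simp only [Finset.mem_image]
  have hφ : (fun a => fC Dg 0 a.1) =
      fun (a : Fin N × Fin 3) x => ∑ ν, ((cC Dg a ν : ℝ) : ℂ) * ep p (dt ν x) := by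
    funext a x
    exact fC0_cC hp Dg a x
  have e0 := pcv_ts hp Dg Λ Fr (UM N Y) (cC Dg) b ∅ (fun _ _ => 1) u lam
    (fun S => ((omL S : ℝ) : ℂ)) Y
  simp only [hI] at e0
  rw [hφ, e0]
  have hpsi : ∀ (a : (Fin N × Fin 3) × (Fin w → ZMod p)) (v : Fin l → ZMod p),
      dt (((UM N Y).ex (cC Dg)).psi a) (Dg.β v (Dg.s (((UM N Y).ex (cC Dg)).cls a))) = 0 := by
    intro a v
    show dt (if cC Dg a.1 a.2 = 0 then 0 else a.2) (Dg.β v (Dg.s a.1.1)) = 0
    by_cases hc : cC Dg a.1 a.2 = 0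
    · rw [if_pos hc]
      unfold dt
      simp
    · rw [if_neg hc, ← rs_dt]
      have h3 : rs Dg a.1.1 a.2 = 0 := by
        by_contra h4
        refine hc ?_
        unfold cC
        rw [if_neg h4]
      rw [h3]
      unfold dt
      simp
  have hb1 := tsv_bad Dg Λ Fr ((UM N Y).ex (cC Dg)) b ∅ (fun _ _ => 1) (fun a => u a.1)
    (fun a a' => lam a.1 a'.1) B (fun t S => t.1 ∈ S ∧ t.2 ∈ S) Y (C * Y * Real.log Y ^ (-A)) ?_
    (fun S => ((omL (S.image Prod.fst) : ℝ) : ℂ)) ?_ ?_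
  · refine hb1.trans ?_
    have h6 : 0 ≤ C * Y * Real.log Y ^ (-A) := by positivity
    nlinarith
  · intro t ht ω hω hω'
    obtain ⟨_, ht1, ht2⟩ := Finset.mem_filter.1 ht
    refine h Y hY1 b hb ((UM N Y).ex (cC Dg)) ?_ _ _ ω hω _ hz1 t.1 t.2 ?_ ?_ ?_ ?_ hω'
    · intro a
      show 0 ≤ cC Dg a.1 a.2 ∧ cC Dg a.1 a.2 ≤ _
      unfold cC
      split_ifs with hc
      · exact ⟨cA_nonneg Dg a.1.1 a.2, ma_cA_le Dg a.1.1 a.2⟩
      · exact ⟨le_refl _, Finset.sum_nonneg fun i _ => Nat.cast_nonneg _⟩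
    · exact fun a => Or.inr (hpsi a)
    · exact fun a _ => hpsi a
    · intro a ha
      have ha2 : a.1.2 = 2 := by
        rw [@Finset.mem_insert _ (fun a b => Classical.propDecidable (a = b)),
          Finset.mem_singleton] at ha
        rcases ha with rfl | rfl
        · rw [ht1]
        · rw [ht2]
      show _ ≤ (UM N Y).lo a.1
      unfold UM
      simp only
      rw [ha2, if_neg (by decide), if_neg (by decide)]
      exact hz2
    · right
      show Nps Dg Λ (Dg.kV (Dg.s t.1.1.1) (Dg.s t.2.1.1))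
      rw [ht1, ht2]
      exact hn
  · intro S
    simp only [omL]
    split_ifs
    · simp
    · simp
  · intro S hS
    have hF : FulL (S.image Prod.fst) := by
      by_contra hF
      refine hS ?_
      simp only [omL, if_neg hF, Complex.ofReal_zero]
    have hj := hF j
    have hk := hF k
    rw [Finset.mem_image] at hj hk
    obtain ⟨a₁, ha₁, e₁⟩ := hj
    obtain ⟨a₂, ha₂, e₂⟩ := hk
    exact ⟨(a₁, a₂), Finset.mem_filter.2 ⟨Finset.mem_univ _, e₁, e₂⟩, ha₁, ha₂⟩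

end H57.CV
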