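import Pool.Agent.H57.CV.Def
import Pool.Agent.H57.MP.Tua
import Pool.Agent.H77.PT.Pts
import Pool.Agent.H77.PT.Col

/-!
# H57-CV-TUV: the tools for the sums with a phase at S0 (as H57/MP/Tua and H77/PT/Col)
-/

set_option autoImplicit false

open scoped NumberField
open IsDedekindDomain
open scoped Classical

noncomputable section

namespace H57.CV

open H57.PC H57.LOW H63.MA H38.BB H38.BG H51.CUB H77.PT H57.MP H51.CUD H57.CC

variable {K : Type} [Field K] [NumberField K] {p : ℕ} {ζ : K} {D : RD0 K p ζ} {Ω : Type}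
  [Field Ω] [Algebra K Ω] {m l w N : ℕ} {P R : Type} [Group P] [Group R] {J : Type} [Fintype J]

private theorem tua_mem {V ι T : Type} [Fintype T] (g : ι × T → Finset V) (a : ι) (v : V) :
    v ∈ uc g a ↔ ∃ t, v ∈ g (a, t) := by
  simp [uc]

theorem colv {ι T : Type} [Fintype ι] [Fintype T] {M A : Type} [CommSemiring M] (D : RD0 K p ζ) (X : ℝ)
    (c : (ι → Finset (Pl K)) → M) (hc : ∀ f, c f ≠ 0 → Dj f ∧ ∏ a, nr (f a) ≤ X)
    (S : (ι → Finset (Pl K)) → Finset A) (κ : A → M) (u : A → ι × T → Pl K → M) :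
    (∑ f ∈ Fintype.piFinset (fun _ : ι => GF D X),
      c f * ∑ ρ ∈ S f, κ ρ * ∏ a, ∏ v ∈ f a, ∑ t, u ρ (a, t) v) =
      ∑ g ∈ Fintype.piFinset (fun _ : ι × T => GF D X),
        if Dj g then c (uc g) * ∑ ρ ∈ S (uc g), κ ρ * ∏ a, ∏ v ∈ g a, u ρ a v else 0 := by
  have h1 : ∀ f ∈ Fintype.piFinset (fun _ : ι => GF D X), f ∉
      (Fintype.piFinset (fun _ : ι => GF D X)).filter (fun f => c f ≠ 0) →
      c f * ∑ ρ ∈ S f, κ ρ * ∏ a, ∏ v ∈ f a, ∑ t, u ρ (a, t) v = 0 := by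
    intro f hf hf'
    have : c f = 0 := by
      by_contra h0
      exact hf' (Finset.mem_filter.2 ⟨hf, h0⟩)
    rw [this, zero_mul]
  rw [← Finset.sum_subset (Finset.filter_subset (fun f => c f ≠ 0) _) h1]
  have h2 : ∀ g ∈ Fintype.piFinset (fun _ : ι × T => GF D X), g ∉
      (Fintype.piFinset (fun _ : ι × T => GF D X)).filter (fun g => Dj g ∧ c (uc g) ≠ 0) →
      (if Dj g then c (uc g) * ∑ ρ ∈ S (uc g), κ ρ * ∏ a, ∏ v ∈ g a, u ρ a v else 0) = 0 := by
    intro g hg hg'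
    by_cases hd : Dj g
    · rw [if_pos hd]
      have : c (uc g) = 0 := by
        by_contra h0
        exact hg' (Finset.mem_filter.2 ⟨hg, hd, h0⟩)
      rw [this, zero_mul]
    · rw [if_neg hd]
  rw [← Finset.sum_subset (Finset.filter_subset (fun g => Dj g ∧ c (uc g) ≠ 0) _) h2]
  have hmaps : ∀ g ∈ (Fintype.piFinset (fun _ : ι × T => GF D X)).filter
      (fun g => Dj g ∧ c (uc g) ≠ 0),
      uc g ∈ (Fintype.piFinset (fun _ : ι => GF D X)).filter (fun f => c f ≠ 0) := by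
    intro g hg
    obtain ⟨hg1, hg2, hg3⟩ := Finset.mem_filter.1 hg
    rw [Fintype.mem_piFinset] at hg1
    refine Finset.mem_filter.2 ⟨Fintype.mem_piFinset.2 fun a => atupa_mem_GF.2 ⟨?_, ?_⟩, hg3⟩
    · exact (atupa_le_prod (uc g) a).trans (hc _ hg3).2
    · intro v hv
      obtain ⟨t, ht⟩ := (tua_mem _ _ _).1 hv
      exact (atupa_mem_GF.1 (hg1 (a, t))).2 v ht
  rw [← Finset.sum_fiberwise_of_maps_to hmaps]
  refine Finset.sum_congr rfl fun f hf => ?_
  obtain ⟨hf1, hf2⟩ := Finset.mem_filter.1 hf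
  rw [Fintype.mem_piFinset] at hf1
  have h3 : ∑ ρ ∈ S f, κ ρ * ∏ a, ∏ v ∈ f a, ∑ t, u ρ (a, t) v =
      ∑ g ∈ (Fintype.piFinset fun a : ι × T => (f a.1).powerset).filter
        (fun g => Dj g ∧ uc g = f), ∑ ρ ∈ S f, κ ρ * ∏ a, ∏ v ∈ g a, u ρ a v := by
    rw [Finset.sum_comm]
    exact Finset.sum_congr rfl fun ρ _ => by
      rw [col_pt f (hc f hf2).1 (u ρ), Finset.mul_sum]
  rw [h3, Finset.mul_sum]
  have h4 : (Fintype.piFinset fun a : ι × T => (f a.1).powerset).filter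
      (fun g => Dj g ∧ uc g = f) =
      ((Fintype.piFinset (fun _ : ι × T => GF D X)).filter
        (fun g => Dj g ∧ c (uc g) ≠ 0)).filter (fun g => uc g = f) := by
    ext g
    simp only [Finset.mem_filter, Fintype.mem_piFinset, Finset.mem_powerset]
    constructor
    · rintro ⟨h5, h6, h7⟩
      refine ⟨⟨fun a => ?_, h6, ?_⟩, h7⟩
      · have h8 := atupa_mem_GF.1 (hf1 a.1)
        exact atupa_mem_GF.2 ⟨(nr_mono (h5 a)).trans h8.1, fun v hv => h8.2 v (h5 a hv)⟩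
      · rw [h7]
        exact hf2
    · rintro ⟨⟨h5, h6, h8⟩, h7⟩
      refine ⟨fun a => ?_, h6, h7⟩
      rw [← h7]
      intro v hv
      exact (tua_mem _ _ _).2 ⟨a.2, hv⟩
  rw [h4]
  refine Finset.sum_congr rfl fun g hg => ?_
  obtain ⟨hg1, hg2⟩ := Finset.mem_filter.1 hg
  obtain ⟨hg3, hg4, hg5⟩ := Finset.mem_filter.1 hg1
  rw [if_pos hg4, hg2]


private theorem tua_sum_uc {J T : Type} [Fintype T] {M : Type} [AddCommMonoid M]
    {g : J × T → Finset (Pl K)} (hg : Dj g) (a : J) (F : Pl K → M) :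
    ∑ v ∈ uc g a, F v = ∑ t, ∑ v ∈ g (a, t), F v := by
  unfold uc
  refine Finset.sum_biUnion ?_
  intro t _ t' _ htt
  exact hg (a, t) (a, t') (fun h => htt (Prod.mk.inj h).2)

private theorem tua_wd [NeZero p] (U : WY N J) (c : J → (Fin w → ZMod p) → ℝ) (E : Finset (Pl K))
    (Y : ℝ) {g : J × (Fin w → ZMod p) → Finset (Pl K)} (hg : Dj g) :
    Wc D U E Y (uc g) ↔ Wd D (U.ex c) E Y g := by
  unfold Wc Wd
  rw [uc_nr hg]
  refine and_congr ⟨fun _ => hg, fun _ => uc_dj hg⟩ (and_congr ?_ (and_congr Iff.rfl ?_))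
  · constructor
    · rintro h ⟨a, t⟩
      have h1 := h a
      unfold uc at h1
      rw [Finset.disjoint_biUnion_left] at h1
      exact h1 t (Finset.mem_univ _)
    · intro h a
      unfold uc
      rw [Finset.disjoint_biUnion_left]
      exact fun t _ => h (a, t)
  · constructor
    · rintro h ⟨a, t⟩ v hv
      exact h a v ((tua_mem g a v).2 ⟨t, hv⟩)
    · intro h a v hv
      obtain ⟨t, ht⟩ := (tua_mem g a v).1 hv
      exact h (a, t) v ht

private theorem tua_cl [NeZero p] (U : WY N J) (c : J → (Fin w → ZMod p) → ℝ)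
    (g : J × (Fin w → ZMod p) → Finset (Pl K)) : clw U (uc g) = clf (U.ex c) g := by
  funext i
  ext v
  unfold clw clf
  rw [Finset.mem_biUnion, Finset.mem_biUnion]
  constructor
  · rintro ⟨a, ha, hv⟩
    obtain ⟨t, ht⟩ := (tua_mem g a v).1 hv
    refine ⟨(a, t), ?_, ht⟩
    rw [Finset.mem_filter] at ha ⊢
    exact ⟨Finset.mem_univ _, ha.2⟩
  · rintro ⟨⟨a, t⟩, ha, hv⟩
    refine ⟨a, ?_, (tua_mem g a v).2 ⟨t, hv⟩⟩
    rw [Finset.mem_filter] at ha ⊢
    exact ⟨Finset.mem_univ _, ha.2⟩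

private theorem tua_spt {T : Type} [Fintype T] (g : J × T → Finset (Pl K)) :
    spt (uc g) = (spt g).image Prod.fst := by
  ext a
  unfold spt
  rw [Finset.mem_filter, Finset.mem_image]
  constructor
  · rintro ⟨-, h⟩
    obtain ⟨v, hv⟩ := Finset.nonempty_iff_ne_empty.2 h
    obtain ⟨t, ht⟩ := (tua_mem g a v).1 hv
    refine ⟨(a, t), ?_, rfl⟩
    rw [Finset.mem_filter]
    exact ⟨Finset.mem_univ _, Finset.nonempty_iff_ne_empty.1 ⟨v, ht⟩⟩
  · rintro ⟨⟨a', t⟩, h, rfl⟩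
    rw [Finset.mem_filter] at h
    obtain ⟨v, hv⟩ := Finset.nonempty_iff_ne_empty.2 h.2
    exact ⟨Finset.mem_univ _, Finset.nonempty_iff_ne_empty.1 ⟨v, (tua_mem g a' v).2 ⟨t, hv⟩⟩⟩

private theorem tua_prod [NeZero p] (hp : p.Prime) {L : LDs D Ω} (Dg : GP p m l w N P R) (Fr : FR L)
    (U : WY N J) (c : J → (Fin w → ZMod p) → ℝ) (ρ : Gal(Ω/K) →* R)
    (g : J × (Fin w → ZMod p) → Finset (Pl K)) :
    ∏ a : J × (Fin w → ZMod p), ∏ v ∈ g a, ((c a.1 a.2 : ℝ) : ℂ) * ep p (dt a.2 (cq Dg Fr ρ v)) =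
      ((∏ a, (U.ex c).wt a ^ (g a).card : ℝ) : ℂ) *
        ep p (∑ a, ∑ v ∈ g a, dt ((U.ex c).psi a) (cq Dg Fr ρ v)) := by
  rw [aexp_ep_sum hp, Complex.ofReal_prod, ← Finset.prod_mul_distrib]
  refine Finset.prod_congr rfl fun a _ => ?_
  rw [aexp_ep_sum hp, Finset.prod_mul_distrib, Finset.prod_const, Complex.ofReal_pow]
  show ((c a.1 a.2 : ℝ) : ℂ) ^ (g a).card * _ = ((c a.1 a.2 : ℝ) : ℂ) ^ (g a).card *
    ∏ v ∈ g a, ep p (dt (if c a.1 a.2 = 0 then 0 else a.2) (cq Dg Fr ρ v))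
  by_cases hc : c a.1 a.2 = 0
  · rcases (g a).eq_empty_or_nonempty with he | hne
    · rw [he]
      simp
    · rw [hc, Complex.ofReal_zero, zero_pow (Finset.card_pos.2 hne).ne', zero_mul, zero_mul]
  · rw [if_neg hc]

theorem pcv_ts [NeZero p] (hp : p.Prime) {L : LDs D Ω} (Dg : GP p m l w N P R)
    (Λ : SF D Ω Dg) (Fr : FR L)
    (U : WY N J) (c : J → (Fin w → ZMod p) → ℝ) (b : Fin m → Kˣ) (E : Finset (Pl K))
    (ε : Pl K → Gal(Ω/K) → R) (u : J → Pl K → ZMod p) (lam : J → J → ZMod p)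
    (ω : Finset J → ℂ) (Y : ℝ) :
    PCV Dg Λ Fr U (fun a x => ∑ ψ, ((c a ψ : ℝ) : ℂ) * ep p (dt ψ x)) b E ε u lam ω Y =
      TSV Dg Λ Fr (U.ex c) b E ε (fun a => u a.1) (fun a a' => lam a.1 a'.1)
        (fun S => ω (S.image Prod.fst)) Y := by
  have hcol := colv (T := Fin w → ZMod p) D (2 * Y)
    (fun f : J → Finset (Pl K) => if Wc D U E Y f ∧ SpR Dg.cr b (clw U f) then
      ω (spt f) * ((wl ((∏ a, nr (f a)) / Y) : ℝ) : ℂ) * ep p (UU D u lam f) else 0)
    (fun f hf => by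
      by_cases h : Wc D U E Y f ∧ SpR Dg.cr b (clw U f)
      · exact ⟨h.1.1, h.1.2.2.1⟩
      · exact absurd (if_neg h) hf)
    (fun f => RHf L Dg b E ε (clw U f))
    (fun ρ => ep p (Lam Dg Λ ρ))
    (fun ρ a v => ((c a.1 a.2 : ℝ) : ℂ) * ep p (dt a.2 (cq Dg Fr ρ v)))
  unfold PCV TSV
  refine Eq.trans ?_ (hcol.trans ?_)
  · refine Finset.sum_congr rfl fun f _ => ?_
    by_cases h : Wc D U E Y f ∧ SpR Dg.cr b (clw U f)
    · simp only [if_pos h]
      ring
    · simp only [if_neg h, zero_mul]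
  · refine Finset.sum_congr ?_ fun g _ => ?_
    · ext g
      simp only [Fintype.mem_piFinset]
    by_cases hg : Dj g
    · rw [if_pos hg]
      have h1 := tua_wd (D := D) U c E Y hg
      have h2 := tua_cl U c g
      rw [h2]
      by_cases h : Wd D (U.ex c) E Y g ∧ SpR Dg.cr b (clf (U.ex c) g)
      · rw [if_pos h, if_pos ⟨h1.2 h.1, h.2⟩, tua_spt, uc_nr hg, uu_uc u lam hg]
        rw [Finset.sum_congr rfl fun ρ _ => congrArg (ep p (Lam Dg Λ ρ) * ·)
          (tua_prod hp Dg Fr U c ρ g)]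
        have h5 : ∑ ρ ∈ RHf L Dg b E ε (clf (U.ex c) g), ep p (Lam Dg Λ ρ) *
            (((∏ a, (U.ex c).wt a ^ (g a).card : ℝ) : ℂ) *
              ep p (∑ a, ∑ v ∈ g a, dt ((U.ex c).psi a) (cq Dg Fr ρ v))) =
            ((∏ a, (U.ex c).wt a ^ (g a).card : ℝ) : ℂ) * PFs Dg Λ Fr (U.ex c) b E ε g := by
          unfold PFs
          rw [Finset.mul_sum]
          refine Finset.sum_congr rfl fun ρ _ => ?_
          rw [ep_add hp]
          ring
        rw [h5]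
        ring
      · rw [if_neg h, if_neg (fun h' => h ⟨h1.1 h'.1, h'.2⟩), zero_mul]
    · rw [if_neg hg, if_neg (fun h => hg h.1.1)]

theorem tsv_sub [NeZero p] (hp : p.Prime) {L : LDs D Ω} (Dg : GP p m l w N P R)
    (Λ : SF D Ω Dg) (Fr : FR L)
    (U : WY N J) (c : J → (Fin w → ZMod p) → ℝ) (S₀ : Finset (J × (Fin w → ZMod p)))
    (b : Fin m → Kˣ) (E : Finset (Pl K)) (ε : Pl K → Gal(Ω/K) → R) (u : J → Pl K → ZMod p)
    (lam : J → J → ZMod p) (ω : Finset J → ℂ) (Y : ℝ) :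
    TSV Dg Λ Fr (U.ex c) b E ε (fun a => u a.1) (fun a a' => lam a.1 a'.1)
        (fun S => if S ⊆ S₀ then ω (S.image Prod.fst) else 0) Y =
      PCV Dg Λ Fr U (fun a x => ∑ ψ, ((if (a, ψ) ∈ S₀ then c a ψ else 0 : ℝ) : ℂ) *
        ep p (dt ψ x)) b E ε u lam ω Y := by
  rw [pcv_ts hp Dg Λ Fr U (fun a ψ => if (a, ψ) ∈ S₀ then c a ψ else 0) b E ε u lam ω Y]
  unfold TSV
  refine Finset.sum_congr rfl fun g _ => ?_
  have hcond : (Wd D (U.ex c) E Y g ∧ SpR Dg.cr b (clf (U.ex c) g)) ↔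
      (Wd D (U.ex fun a ψ => if (a, ψ) ∈ S₀ then c a ψ else 0) E Y g ∧
        SpR Dg.cr b (clf (U.ex fun a ψ => if (a, ψ) ∈ S₀ then c a ψ else 0) g)) := Iff.rfl
  by_cases h : Wd D (U.ex c) E Y g ∧ SpR Dg.cr b (clf (U.ex c) g)
  · rw [if_pos h, if_pos (hcond.1 h)]
    beta_reduce
    by_cases hs : spt g ⊆ S₀
    · rw [if_pos hs]
      have hw : ∏ a, (U.ex c).wt a ^ (g a).card =
          ∏ a, (U.ex fun a ψ => if (a, ψ) ∈ S₀ then c a ψ else 0).wt a ^ (g a).card := by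
        refine Finset.prod_congr rfl fun a _ => ?_
        by_cases ha : g a = ∅
        · rw [ha, Finset.card_empty, pow_zero, pow_zero]
        · have : a ∈ S₀ := hs (by unfold spt; rw [Finset.mem_filter]; exact ⟨Finset.mem_univ _, ha⟩)
          show c a.1 a.2 ^ _ = (if (a.1, a.2) ∈ S₀ then c a.1 a.2 else 0) ^ _
          rw [if_pos this]
      have hpf : PFs Dg Λ Fr (U.ex c) b E ε g =
          PFs Dg Λ Fr (U.ex fun a ψ => if (a, ψ) ∈ S₀ then c a ψ else 0) b E ε g := by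
        unfold PFs
        refine Finset.sum_congr rfl fun ρ _ => ?_
        congr 2
        refine Finset.sum_congr rfl fun a _ => ?_
        by_cases ha : g a = ∅
        · rw [ha, Finset.sum_empty, Finset.sum_empty]
        · have h3 : a ∈ S₀ := hs (by unfold spt; rw [Finset.mem_filter]; exact ⟨Finset.mem_univ _, ha⟩)
          have h4 : (U.ex c).psi a =
              (U.ex fun a ψ => if (a, ψ) ∈ S₀ then c a ψ else 0).psi a := by
            show (if c a.1 a.2 = 0 then (0 : Fin w → ZMod p) else a.2) =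
              if (if (a.1, a.2) ∈ S₀ then c a.1 a.2 else 0) = 0 then 0 else a.2
            rw [if_pos h3]
          rw [h4]
      rw [hw, hpf]
    · rw [if_neg hs, zero_mul, zero_mul, zero_mul, zero_mul]
      obtain ⟨a, ha, ha'⟩ := Finset.not_subset.1 hs
      unfold spt at ha
      rw [Finset.mem_filter] at ha
      have hz : ∏ a, (U.ex fun a ψ => if (a, ψ) ∈ S₀ then c a ψ else 0).wt a ^ (g a).card = 0 := by
        refine Finset.prod_eq_zero (Finset.mem_univ a) ?_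
        show (if (a.1, a.2) ∈ S₀ then c a.1 a.2 else 0) ^ (g a).card = 0
        rw [if_neg ha']
        exact zero_pow (Finset.card_pos.2 (Finset.nonempty_iff_ne_empty.2 ha.2)).ne'
      rw [hz, Complex.ofReal_zero, mul_zero, zero_mul, zero_mul, zero_mul]
  · rw [if_neg h, if_neg (fun h' => h (hcond.2 h'))]

theorem tsv_sum [NeZero p] {L : LDs D Ω} (Dg : GP p m l w N P R)
    (Λ : SF D Ω Dg) (Fr : FR L) (T : TY N w p J)
    (b : Fin m → Kˣ) (E : Finset (Pl K)) (ε : Pl K → Gal(Ω/K) → R) (u : J → Pl K → ZMod p)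
    (lam : J → J → ZMod p) {A : Type} (B : Finset A) (ω : A → Finset J → ℂ) (Y : ℝ) :
    TSV Dg Λ Fr T b E ε u lam (fun S => ∑ t ∈ B, ω t S) Y =
      ∑ t ∈ B, TSV Dg Λ Fr T b E ε u lam (ω t) Y := by
  unfold TSV
  rw [Finset.sum_comm]
  refine Finset.sum_congr rfl fun g _ => ?_
  split_ifs with hc
  · rw [Finset.sum_mul, Finset.sum_mul, Finset.sum_mul, Finset.sum_mul]
  · rw [Finset.sum_const_zero]

theorem tsv_sub2 [NeZero p] {L : LDs D Ω} (Dg : GP p m l w N P R)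
    (Λ : SF D Ω Dg) (Fr : FR L) (T : TY N w p J)
    (b : Fin m → Kˣ) (E : Finset (Pl K)) (ε : Pl K → Gal(Ω/K) → R) (u : J → Pl K → ZMod p)
    (lam : J → J → ZMod p) (ω ω' : Finset J → ℂ) (Y : ℝ) :
    TSV Dg Λ Fr T b E ε u lam (fun S => ω S - ω' S) Y =
      TSV Dg Λ Fr T b E ε u lam ω Y - TSV Dg Λ Fr T b E ε u lam ω' Y := by
  unfold TSV
  rw [← Finset.sum_sub_distrib]
  refine Finset.sum_congr rfl fun g _ => ?_
  split_ifs with hc
  · ring
  · rw [sub_zero]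

theorem tsv_bad [NeZero p] {L : LDs D Ω} (Dg : GP p m l w N P R)
    (Λ : SF D Ω Dg) (Fr : FR L) (T : TY N w p J)
    (b : Fin m → Kˣ) (E : Finset (Pl K)) (ε : Pl K → Gal(Ω/K) → R) (u : J → Pl K → ZMod p)
    (lam : J → J → ZMod p) {A : Type} (B : Finset A) (Bd : A → Finset J → Prop) (Y M : ℝ)
    (h : ∀ t ∈ B, ∀ ω : Finset J → ℂ, (∀ S, ‖ω S‖ ≤ 1) → (∀ S, ω S ≠ 0 → Bd t S) →
      ‖TSV Dg Λ Fr T b E ε u lam ω Y‖ ≤ M)
    (ω : Finset J → ℂ) (hω : ∀ S, ‖ω S‖ ≤ 1) (hω' : ∀ S, ω S ≠ 0 → ∃ t ∈ B, Bd t S) :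
    ‖TSV Dg Λ Fr T b E ε u lam ω Y‖ ≤ B.card * M := by
  obtain ⟨τ, hτ⟩ : ∃ τ : Finset J → Option A,
      ∀ S, ω S ≠ 0 → ∃ t ∈ B, Bd t S ∧ τ S = some t := by
    refine ⟨fun S => if h : ∃ t ∈ B, Bd t S then some h.choose else none, fun S hS => ?_⟩
    have h1 := hω' S hS
    exact ⟨h1.choose, h1.choose_spec.1, h1.choose_spec.2, dif_pos h1⟩
  have e : ω = fun S => ∑ t ∈ B, if τ S = some t then ω S else 0 := by
    funext S
    by_cases hS : ω S = 0
    · rw [hS]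
      symm
      refine Finset.sum_eq_zero fun t _ => ?_
      split_ifs <;> rfl
    · obtain ⟨t, ht, -, htt⟩ := hτ S hS
      rw [Finset.sum_eq_single t]
      · rw [if_pos htt]
      · intro t' _ htt'
        rw [if_neg]
        rw [htt]
        intro h2
        exact htt' (Option.some.inj h2).symm
      · intro h2
        exact absurd ht h2
  rw [e, tsv_sum Dg Λ Fr T b E ε u lam B (fun t S => if τ S = some t then ω S else 0) Y]
  refine (norm_sum_le _ _).trans ?_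
  calc ∑ t ∈ B, ‖TSV Dg Λ Fr T b E ε u lam (fun S => if τ S = some t then ω S else 0) Y‖ ≤
        ∑ _t ∈ B, M := by
        refine Finset.sum_le_sum fun t ht => h t ht _ (fun S => ?_) fun S hS => ?_
        · split_ifs
          · exact hω S
          · rw [norm_zero]; exact zero_le_one
        · by_cases h2 : τ S = some t
          · have h3 : ω S ≠ 0 := by
              simpa only [h2, if_true] using hS
            obtain ⟨t', _, hb, ht'⟩ := hτ S h3
            rw [h2] at ht'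
            rw [Option.some.inj ht']
            exact hb
          · exact absurd (if_neg h2) hS
    _ = B.card * M := by rw [Finset.sum_const, nsmul_eq_mul]

end H57.CV
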